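import Pool.Agent.Helper87.J.Prob
import Pool.Agent.Helper63.J.VJ

/-!
Convergence of vectors with a common finite support, along a filter; sweeps with variable parameters.
-/

set_option autoImplicit false

namespace H47Perc.JJ
open Finset Filter Topology

section
variable {ι : Type*} {l : Filter ι}

/-- coefficientwise convergence with a common finite support -/
def Cv (l : Filter ι) (v : ι → IP.M) (w : IP.M) : Prop :=
  ∃ S : Finset IP.St, (∀ i, (v i).support ⊆ S) ∧ w.support ⊆ S ∧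
    ∀ σ, Tendsto (fun i => v i σ) l (𝓝 (w σ))

lemma cv_expand {S : Finset IP.St} {v : IP.M} (h : v.support ⊆ S) :
    v = ∑ σ ∈ S, v σ • Finsupp.single σ (1 : ℝ) := by
  conv_lhs => rw [← Finsupp.sum_single v]
  rw [Finsupp.sum_of_support_subset v h]
  · refine sum_congr rfl fun σ _ => ?_
    rw [Finsupp.smul_single, smul_eq_mul, mul_one]
  · intro σ _
    rw [Finsupp.single_zero]

lemma Cv.const (w : IP.M) : Cv l (fun _ => w) w :=
  ⟨w.support, fun _ => subset_rfl, subset_rfl, fun _ => tendsto_const_nhds⟩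

lemma Cv.lin {v : ι → IP.M} {w : IP.M} (h : Cv l v w) (A : IP.M →ₗ[ℝ] IP.M) :
    Cv l (fun i => A (v i)) (A w) := by
  classical
  obtain ⟨S, h1, h2, h3⟩ := h
  have key : ∀ u : IP.M, u.support ⊆ S → ∀ τ, A u τ = ∑ σ ∈ S, u σ * A (Finsupp.single σ 1) τ := by
    intro u hu τ
    conv_lhs => rw [cv_expand hu]
    rw [map_sum, Finsupp.finsetSum_apply]
    refine sum_congr rfl fun σ _ => ?_
    rw [map_smul, Finsupp.smul_apply, smul_eq_mul]
  have ks : ∀ u : IP.M, u.support ⊆ S →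
      (A u).support ⊆ S.biUnion (fun σ => (A (Finsupp.single σ 1)).support) := by
    intro u hu τ hτ
    rw [Finsupp.mem_support_iff, key u hu] at hτ
    obtain ⟨σ, hσ, hne⟩ := Finset.exists_ne_zero_of_sum_ne_zero hτ
    rw [mem_biUnion]
    exact ⟨σ, hσ, Finsupp.mem_support_iff.2 (right_ne_zero_of_mul hne)⟩
  refine ⟨_, fun i => ks _ (h1 i), ks _ h2, fun τ => ?_⟩
  rw [key w h2]
  have e : (fun i => A (v i) τ) = fun i => ∑ σ ∈ S, v i σ * A (Finsupp.single σ 1) τ := by
    funext i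
    exact key _ (h1 i) τ
  rw [e]
  exact tendsto_finsetSum _ fun σ _ => (h3 σ).mul_const _

lemma Cv.smul {v : ι → IP.M} {w : IP.M} (h : Cv l v w) {c : ι → ℝ} {d : ℝ} (hc : Tendsto c l (𝓝 d)) :
    Cv l (fun i => c i • v i) (d • w) := by
  obtain ⟨S, h1, h2, h3⟩ := h
  refine ⟨S, fun i => Finsupp.support_smul.trans (h1 i), Finsupp.support_smul.trans h2, fun σ => ?_⟩
  simp only [Finsupp.smul_apply, smul_eq_mul]
  exact hc.mul (h3 σ)

lemma Cv.add {v v' : ι → IP.M} {w w' : IP.M} (h : Cv l v w) (h' : Cv l v' w') :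
    Cv l (fun i => v i + v' i) (w + w') := by
  classical
  obtain ⟨S, h1, h2, h3⟩ := h
  obtain ⟨S', h1', h2', h3'⟩ := h'
  refine ⟨S ∪ S', fun i => Finsupp.support_add.trans (union_subset_union (h1 i) (h1' i)),
    Finsupp.support_add.trans (union_subset_union h2 h2'), fun σ => ?_⟩
  simp only [Finsupp.add_apply]
  exact (h3 σ).add (h3' σ)

lemma Cv.Rt {v : ι → IP.M} {w : IP.M} (h : Cv l v w) (k : ℕ) {u : ι → ℝ} {u0 : ℝ}
    (hu : Tendsto u l (𝓝 u0)) : Cv l (fun i => IP.Rt k (u i) (v i)) (IP.Rt k u0 w) := by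
  have e : ∀ (x : ℝ) (z : IP.M), IP.Rt k x z = IP.s (-x) • z + Real.sin x • IP.E k z := by
    intro x z
    rfl
  simp only [e]
  refine Cv.add (h.smul ?_) ((h.lin (IP.E k)).smul ?_)
  · exact (IP.s_continuous.tendsto _).comp (hu.neg)
  · exact (Real.continuous_sin.tendsto _).comp hu

lemma Cv.tot {v : ι → IP.M} {w : IP.M} (h : Cv l v w) :
    Tendsto (fun i => IP.tot (v i)) l (𝓝 (IP.tot w)) := by
  obtain ⟨S, h1, h2, h3⟩ := h
  have key : ∀ u : IP.M, u.support ⊆ S → IP.tot u = ∑ σ ∈ S, u σ := by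
    intro u hu
    conv_lhs => rw [cv_expand hu]
    rw [map_sum]
    refine sum_congr rfl fun σ _ => ?_
    rw [map_smul, IP.tot_single, smul_eq_mul, mul_one]
  rw [key w h2]
  have e : (fun i => IP.tot (v i)) = fun i => ∑ σ ∈ S, v i σ := by
    funext i
    exact key _ (h1 i)
  rw [e]
  exact tendsto_finsetSum _ fun σ _ => h3 σ

lemma Cv.tri {v1 v2 v : ι → IP.M} {w1 w2 w : IP.M} (h1 : Cv l v1 w1) (h2 : Cv l v2 w2)
    (h : Cv l v w) (n1 n2 : ℕ) :
    Tendsto (fun i => IP.Slit.tri n1 n2 (v1 i) (v2 i) (v i)) l (𝓝 (IP.Slit.tri n1 n2 w1 w2 w)) := by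
  obtain ⟨S1, a1, b1, c1⟩ := h1
  obtain ⟨S2, a2, b2, c2⟩ := h2
  obtain ⟨S, a, b, c⟩ := h
  rw [IP.Slit.tri_eq_sum n1 n2 b1 b2 b]
  have e : (fun i => IP.Slit.tri n1 n2 (v1 i) (v2 i) (v i)) = fun i =>
      ∑ t1 ∈ S1, ∑ t2 ∈ S2, ∑ σ ∈ S, v1 i t1 * v2 i t2 * v i σ * IP.Slit.cf n1 n2 t1 t2 σ := by
    funext i
    rw [IP.Slit.tri_eq_sum n1 n2 (a1 i) (a2 i) (a i)]
  rw [e]
  refine tendsto_finsetSum _ fun t1 _ => tendsto_finsetSum _ fun t2 _ => tendsto_finsetSum _ fun σ _ => ?_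
  exact (((c1 t1).mul (c2 t2)).mul (c σ)).mul tendsto_const_nhds

/-- the vectors `V` depend continuously on the parameters -/
lemma Cv.V (n : ℕ) {b : ι → ℕ → ℝ} {b0 : ℕ → ℝ} (hb : ∀ j, Tendsto (fun i => b i j) l (𝓝 (b0 j))) :
    Cv l (fun i => IP.V n (b i)) (IP.V n b0) := by
  have hb' : Tendsto b l (𝓝 b0) := tendsto_pi_nhds.2 hb
  have hs : ∀ c, (IP.V n c).support ⊆ (IP.W_finite n).toFinset := by
    intro c σ hσ
    rw [Set.Finite.mem_toFinset]
    exact ((Finsupp.mem_supported ℝ _).1 (IP.V_Sup n c)) hσ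
  exact ⟨_, fun i => hs _, hs _, fun σ => ((IP.V_Sep n σ).continuous.tendsto b0).comp hb'⟩

/-- the normalised vectors converge -/
lemma Cv.norm {v : ι → IP.M} {w : IP.M} (h : Cv l v w) (hw : IP.tot w ≠ 0) :
    Cv l (fun i => (IP.tot (v i))⁻¹ • v i) ((IP.tot w)⁻¹ • w) := h.smul (h.tot.inv₀ hw)

end

/-! ### sweeps with variable parameters -/

/-- `Rt (off+r-1) (d (r-1)) ∘ ... ∘ Rt off (d 0)` -/
noncomputable def upX (off : ℕ) (d : ℕ → ℝ) : ℕ → IP.M →ₗ[ℝ] IP.M
  | 0 => LinearMap.id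
  | r + 1 => IP.Rt (off + r) (d r) ∘ₗ upX off d r

lemma upX_succ (off : ℕ) (d : ℕ → ℝ) (r : ℕ) (v : IP.M) :
    upX off d (r + 1) v = IP.Rt (off + r) (d r) (upX off d r v) := rfl

lemma upX_const (off r : ℕ) (v : IP.M) : upX off (fun _ => Real.pi / 6) r v = upR off r v := by
  induction r with
  | zero => rfl
  | succ r ih =>
    rw [upX_succ, ih]
    rfl

lemma tot_upX (off : ℕ) (d : ℕ → ℝ) (r : ℕ) (v : IP.M) :
    IP.tot (upX off d r v) = (∏ j ∈ range r, IP.s (d j)) * IP.tot v := by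
  induction r with
  | zero => simp [upX]
  | succ r ih =>
    rw [upX_succ, IP.tot_Rt, ih, prod_range_succ]
    ring

lemma Cv.upX {ι : Type*} {l : Filter ι} {v : ι → IP.M} {w : IP.M} (h : Cv l v w) (off : ℕ)
    {d : ι → ℕ → ℝ} (hd : ∀ j, Tendsto (fun i => d i j) l (𝓝 (Real.pi / 6))) (r : ℕ) :
    Cv l (fun i => JJ.upX off (d i) r (v i)) (upR off r w) := by
  induction r with
  | zero => exact h
  | succ r ih => exact ih.Rt (off + r) (hd r)

/-- the strand `a` is moved over `r` strands -/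
def mvX (a r : ℕ) (b : ℕ → ℝ) : ℕ → ℝ := fun j =>
  if j < a then b j else if j < a + r then b (j + 1) else if j = a + r then b a else b j

lemma upX_V {n : ℕ} (a : ℕ) {b d : ℕ → ℝ} : ∀ r : ℕ, a + r ≤ 2 * n →
    (∀ j < r, d j = b a - b (a + 1 + j)) →
    upX a d r (IP.V n b) = (∏ j ∈ range r, IP.s (d j)) • IP.V n (mvX a r b) := by
  intro r
  induction r with
  | zero =>
    intro _ _
    rw [prod_range_zero, one_smul]
    change IP.V n b = _
    congr 1
    funext j
    unfold mvX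
    by_cases h2 : j < a
    · rw [if_pos h2]
    · rw [if_neg h2, if_neg (by omega)]
      by_cases h3 : j = a
      · rw [if_pos (by omega), h3]
      · rw [if_neg (by omega)]
  | succ r ih =>
    intro hn hd
    rw [upX_succ, ih (by omega) (fun j hj => hd j (by omega)), map_smul]
    have e1 : mvX a r b (a + r) = b a := by
      unfold mvX
      rw [if_neg (by omega), if_neg (by omega), if_pos rfl]
    have e2 : mvX a r b (a + r + 1) = b (a + 1 + r) := by
      unfold mvX
      rw [if_neg (by omega), if_neg (by omega), if_neg (by omega)]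
      congr 1
      ring
    have h3 := IP.V_sw (n := n) (i := a + r) (by omega) (mvX a r b)
    rw [e1, e2, ← hd r (by omega)] at h3
    rw [← h3, smul_smul, prod_range_succ]
    congr 2
    funext j
    unfold IP.sw
    by_cases h1 : j = a + r
    · rw [h1, Equiv.swap_apply_left, e2]
      unfold mvX
      rw [if_neg (by omega), if_pos (by omega)]
      congr 1
      ring
    · by_cases h2 : j = a + r + 1
      · rw [h2, Equiv.swap_apply_right, e1]
        unfold mvX
        rw [if_neg (by omega), if_neg (by omega), if_pos (by omega)]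
      · rw [Equiv.swap_apply_of_ne_of_ne h1 h2]
        unfold mvX
        by_cases h4 : j < a
        · rw [if_pos h4, if_pos h4]
        · rw [if_neg h4, if_neg h4]
          by_cases h5 : j < a + r
          · rw [if_pos h5, if_pos (by omega)]
          · rw [if_neg h5, if_neg h1, if_neg (by omega), if_neg (by omega)]

end H47Perc.JJ
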