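import Pool.Agent.Helper87.J2.Prob

/-!
The T-junction with the upper leg wider than the lower one: the law of the lower piece.
-/

set_option autoImplicit false

namespace H47Perc.JJ
open Finset Filter Topology H47Perc.DS H47Perc.SL

/-! ### nested arcs on the line `w = 1` -/

/-- a new site at the position `j` -/
def insAt (j : ℕ) (v : ℤ × ℤ) (f : ℕ → ℤ × ℤ) (k : ℕ) : ℤ × ℤ :=
  if k < j then f k else if k = j then v else f (k - 1)

lemma stA_insAt {A : Set (ℤ × ℤ)} {f : ℕ → ℤ × ℤ} {ω : Finset (Sym2 (ℤ × ℤ))} {v : ℤ × ℤ} {j : ℕ}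
    (h1 : ∀ u, s(v, u) ∉ ω) (h2 : v ∉ A) (h3 : ∀ k, f k ≠ v) :
    stA A (insAt j v f) ω = IP.ins (2 * j) (stA A f ω) := by
  ext x y
  rw [stA_rel]
  unfold IP.ins
  rw [if_pos (by omega), show 2 * j / 2 = j by omega]
  change _ ↔ x = y ∨ (x ≠ j ∧ y ≠ j ∧ cs A ω (f (IP.unskip j x)) (f (IP.unskip j y)))
  have hf : ∀ k, k ≠ j → insAt j v f k = f (IP.unskip j k) := by
    intro k hk
    unfold insAt IP.unskip
    by_cases h : k < j
    · rw [if_pos h, if_pos h]
    · rw [if_neg h, if_neg hk, if_neg h]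
  have hj : insAt j v f j = v := by
    unfold insAt
    rw [if_neg (by omega), if_pos rfl]
  by_cases hx : x = j
  · by_cases hy : y = j
    · rw [hx, hy]
      exact ⟨fun _ => Or.inl rfl, fun _ => (cs A ω).refl _⟩
    · rw [hx, hj, hf y hy]
      constructor
      · intro h
        exact absurd (cs_isolated h1 h2 h) (h3 _)
      · rintro (h | ⟨h, _⟩)
        · exact absurd h.symm hy
        · exact absurd rfl h
  · by_cases hy : y = j
    · rw [hy, hj, hf x hx]
      constructor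
      · intro h
        exact absurd (cs_isolated h1 h2 (Setoid.symm' _ h)) (h3 _)
      · rintro (h | ⟨_, h, _⟩)
        · exact absurd h hx
        · exact absurd rfl h
    · rw [hf x hx, hf y hy]
      constructor
      · intro h
        exact Or.inr ⟨hx, hy, h⟩
      · rintro (h | ⟨_, _, h⟩)
        · rw [h]
        · exact h

lemma lawA_insAt {A : Set (ℤ × ℤ)} {F : Finset (Sym2 (ℤ × ℤ))} {f : ℕ → ℤ × ℤ} {v : ℤ × ℤ} {j : ℕ}
    (h1 : ∀ u, s(v, u) ∉ F) (h2 : v ∉ A) (h3 : ∀ k, f k ≠ v) :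
    lawA A F (insAt j v f) = IP.In (2 * j) (lawA A F f) := by
  unfold lawA IP.In
  rw [map_sum]
  apply sum_congr rfl
  intro ω hω
  rw [mem_powerset] at hω
  rw [Finsupp.lmapDomain_apply, Finsupp.mapDomain_single, stA_insAt (fun u h => h1 u (hω h)) h2 h3]

lemma lawA_coll (A : Set (ℤ × ℤ)) (F : Finset (Sym2 (ℤ × ℤ))) (f : ℕ → ℤ × ℤ) (j : ℕ) :
    lawA A F (fun k => f (IP.coll j k)) = IP.In (2 * j + 1) (lawA A F f) := by
  unfold lawA IP.In
  rw [map_sum]
  apply sum_congr rfl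
  intro ω _
  rw [Finsupp.lmapDomain_apply, Finsupp.mapDomain_single]
  congr 1
  unfold IP.ins
  rw [if_neg (by omega), show (2 * j + 1) / 2 = j by omega]
  rfl

/-- the nested arcs -/
noncomputable def KA (n0 : ℕ) : ℕ → IP.M →ₗ[ℝ] IP.M
  | 0 => LinearMap.id
  | p + 1 => IP.In (2 * (n0 + p + 1)) ∘ₗ IP.In (2 * (n0 + p) + 1) ∘ₗ KA n0 p

lemma KA_succ (n0 p : ℕ) (v : IP.M) :
    KA n0 (p + 1) v = IP.In (2 * (n0 + p + 1)) (IP.In (2 * (n0 + p) + 1) (KA n0 p v)) := rfl

lemma fK_zero_key (n0 m k : ℕ) (hn : n0 ≤ m) :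
    (k ≤ m ∧ fK n0 m 0 k = ((k : ℤ) + 1, (k : ℤ))) ∨
      (m < k ∧ k + n0 ≤ 2 * m ∧ fK n0 m 0 k = (2 * (m : ℤ) + 1 - k, 2 * (m : ℤ) - k)) ∨
      (m < k ∧ 2 * m < k + n0 ∧ fK n0 m 0 k = ((n0 : ℤ) + 1, (n0 : ℤ))) := by
  unfold fK
  by_cases h1 : k ≤ m
  · left
    rw [if_pos h1]
    exact ⟨h1, by simp⟩
  · rw [if_neg h1, if_neg (by omega)]
    by_cases h3 : k + n0 ≤ 2 * m + 0
    · rw [if_pos h3]
      right; left
      exact ⟨by omega, by omega, by simp⟩
    · rw [if_neg h3]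
      right; right
      exact ⟨by omega, by omega, rfl⟩

lemma fK_zero_succ (n0 m : ℕ) (hn : n0 ≤ m) :
    fK n0 (m + 1) 0 = insAt (m + 1) ((m : ℤ) + 2, (m : ℤ) + 1) (fun k => fK n0 m 0 (IP.coll m k)) := by
  funext k
  unfold insAt IP.coll
  rcases fK_zero_key n0 (m + 1) k (by omega) with ⟨h1, e1⟩ | ⟨h1, h2, e1⟩ | ⟨h1, h2, e1⟩
  · rw [e1]
    by_cases hk : k < m + 1
    · rw [if_pos hk]
      beta_reduce
      rw [if_pos (by omega)]
      rcases fK_zero_key n0 m k hn with ⟨h3, e3⟩ | ⟨h3, h4, e3⟩ | ⟨h3, h4, e3⟩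
      · rw [e3]
      · omega
      · omega
    · rw [if_neg hk, if_pos (by omega)]
      have : k = m + 1 := by omega
      subst this
      push_cast
      ext
      · simp only; ring
      · rfl
  · rw [e1, if_neg (by omega), if_neg (by omega)]
    beta_reduce
    by_cases hk : k = m + 2
    · subst hk
      rw [if_neg (by omega)]
      rcases fK_zero_key n0 m (m + 2 - 1 - 1) hn with ⟨h3, e3⟩ | ⟨h3, h4, e3⟩ | ⟨h3, h4, e3⟩
      · rw [e3]
        ext
        · simp only; push_cast; omega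
        · simp only; push_cast; omega
      · omega
      · omega
    · rw [if_neg (by omega)]
      rcases fK_zero_key n0 m (k - 1 - 1) hn with ⟨h3, e3⟩ | ⟨h3, h4, e3⟩ | ⟨h3, h4, e3⟩
      · omega
      · rw [e3]
        ext
        · simp only; push_cast; omega
        · simp only; push_cast; omega
      · omega
  · rw [e1, if_neg (by omega), if_neg (by omega)]
    beta_reduce
    rw [if_neg (by omega)]
    rcases fK_zero_key n0 m (k - 1 - 1) hn with ⟨h3, e3⟩ | ⟨h3, h4, e3⟩ | ⟨h3, h4, e3⟩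
    · rw [e3]
      ext
      · simp only; omega
      · simp only; omega
    · rw [e3]
      ext
      · simp only; omega
      · simp only; omega
    · rw [e3]

lemma fK_zero_ne (n0 m : ℕ) (hn : n0 ≤ m) (k : ℕ) : fK n0 m 0 k ≠ ((m : ℤ) + 2, (m : ℤ) + 1) := by
  intro h
  rcases fK_zero_key n0 m k hn with ⟨h1, e1⟩ | ⟨h1, h2, e1⟩ | ⟨h1, h2, e1⟩ <;>
    (rw [e1, Prod.mk.injEq] at h; omega)

/-- the law on the line `w = 1` -/
theorem lawA_arcs (n0 p : ℕ) (a : ℤ) :
    lawA (LW n0) (edgesIn (reg n0 a 1)) (fK n0 (n0 + p) 0) =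
      KA n0 p (law (2 * n0 + 1) (edgesIn (reg n0 a 1)) (fr n0 0)) := by
  induction p with
  | zero =>
    rw [← lawA_low, fJ_zero]
    change _ = lawA _ _ _
    congr 1
    funext k
    rw [fr_zero]
    rcases fK_zero_key n0 (n0 + 0) k (by omega) with ⟨h1, e1⟩ | ⟨h1, h2, e1⟩ | ⟨h1, h2, e1⟩
    · rw [e1]
      ext
      · simp only; omega
      · simp only; omega
    · omega
    · rw [e1]
      ext
      · simp only; omega
      · simp only; omega
  | succ p ih =>
    rw [KA_succ, ← ih, ← lawA_coll, ← lawA_insAt (v := (((n0 + p : ℕ) : ℤ) + 2, ((n0 + p : ℕ) : ℤ) + 1))]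
    · rw [show n0 + (p + 1) = n0 + p + 1 by ring, fK_zero_succ n0 (n0 + p) (by omega)]
    · intro u h
      have := mem_reg.1 (mem_edgesIn.1 h).1
      push_cast at this
      omega
    · rw [mem_LW]
      push_cast
      omega
    · intro k
      exact fK_zero_ne n0 (n0 + p) (by omega) _

/-! ### the rows -/

/-- the front at the level `w = 2t+2` -/
def gK (n0 m t : ℕ) (k : ℕ) : ℤ × ℤ :=
  if k ≤ m then ((k : ℤ) + t + 1, (k : ℤ) - t - 1) else fK n0 m t (k - 1)

lemma fK_le {n0 m t k : ℕ} (h : k ≤ m) : fK n0 m t k = ((k : ℤ) + t + 1, (k : ℤ) - t) := if_pos h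
lemma gK_le {n0 m t k : ℕ} (h : k ≤ m) : gK n0 m t k = ((k : ℤ) + t + 1, (k : ℤ) - t - 1) := if_pos h
lemma gK_gt {n0 m t k : ℕ} (h : m < k) : gK n0 m t k = fK n0 m t (k - 1) := if_neg (by omega)

lemma fK_level (n0 m t k : ℕ) : (fK n0 m t k).1 - (fK n0 m t k).2 ≤ 2 * t + 1 := by
  unfold fK
  split_ifs <;> simp only <;> omega

lemma gK_level (n0 m t k : ℕ) : (gK n0 m t k).1 - (gK n0 m t k).2 ≤ 2 * t + 2 := by
  unfold gK
  split_ifs
  · simp only
    omega
  · have := fK_level n0 m t (k - 1)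
    omega

lemma U1_eq (n0 m t : ℕ) : U1 m t =
    (Ico 1 (1 + (2 * m + 1))).image (edU (cns ((t : ℤ) + 1, -(t : ℤ) - 1) (fK n0 m t)) (gK n0 m t)) := by
  unfold U1
  apply image_congr
  intro r hr
  rw [Finset.mem_coe, mem_Ico] at hr
  unfold edU cns
  rw [gJ_le (by omega), gK_le (by omega), if_neg (by omega), if_neg (by omega), fJ_le (by omega),
    fK_le (by omega)]

lemma U2_eq' (n0 m t : ℕ) : U2 m t (2 * m + 1) =
    (Ico 0 (0 + (2 * m + 1))).image (edU (gK n0 m t) (fK n0 m (t + 1))) := by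
  unfold U2
  apply image_congr
  intro r hr
  rw [Finset.mem_coe, mem_Ico] at hr
  unfold edU
  rw [gJ_le (by omega), gK_le (by omega), fJ_le (by omega), fK_le (by omega)]

lemma admK1 (n0 m t : ℕ) {F : Finset (Sym2 (ℤ × ℤ))} (hF : ∀ u v, s(u, v) ∈ F → u.1 - u.2 ≤ 2 * t + 1) :
    AdmU (LW n0) (cns ((t : ℤ) + 1, -(t : ℤ) - 1) (fK n0 m t)) (gK n0 m t) 1 (1 + (2 * m + 1)) F where
  h3 := by
    intro r h1 h2 h
    unfold edU at h
    have := hF _ _ h
    rw [gK_le (by omega)] at this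
    simp only at this
    omega
  h3' := by
    intro r r' h1 h2 h1' h2' hne he
    unfold edU cns at he
    rw [gK_le (by omega), gK_le (by omega), if_neg (by omega), if_neg (by omega), fK_le (by omega),
      fK_le (by omega), Sym2.eq_iff, Prod.mk.injEq, Prod.mk.injEq, Prod.mk.injEq, Prod.mk.injEq] at he
    omega
  h4 := by
    intro j h1 h2
    rw [gK_le (by omega)]
    refine ⟨?_, ?_, ?_, ?_⟩
    · intro u h
      have := hF _ _ h
      simp only at this
      omega
    · rw [mem_LW]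
      simp only
      omega
    · intro k hk h
      rw [gK_le (by omega), Prod.mk.injEq] at h
      omega
    · intro k h
      unfold cns at h
      by_cases hk : k = 0
      · rw [if_pos hk, Prod.mk.injEq] at h
        omega
      · rw [if_neg hk] at h
        have := fK_level n0 m t (k - 1)
        rw [h] at this
        simp only at this
        omega

lemma admK2 (n0 m t : ℕ) {F : Finset (Sym2 (ℤ × ℤ))}
    (hF : ∀ u v, s(u, v) ∈ F → u.1 - u.2 ≤ 2 * t + 2) :
    AdmU (LW n0) (gK n0 m t) (fK n0 m (t + 1)) 0 (0 + (2 * m + 1)) F where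
  h3 := by
    intro r h1 h2 h
    unfold edU at h
    have := hF _ _ h
    rw [fK_le (by omega)] at this
    push_cast at this
    omega
  h3' := by
    intro r r' h1 h2 h1' h2' hne he
    unfold edU at he
    rw [fK_le (by omega), fK_le (by omega), gK_le (by omega), gK_le (by omega), Sym2.eq_iff,
      Prod.mk.injEq, Prod.mk.injEq, Prod.mk.injEq, Prod.mk.injEq] at he
    push_cast at he
    omega
  h4 := by
    intro j h1 h2
    rw [fK_le (by omega)]
    refine ⟨?_, ?_, ?_, ?_⟩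
    · intro u h
      have := hF _ _ h
      push_cast at this
      omega
    · rw [mem_LW]
      push_cast
      omega
    · intro k hk h
      rw [fK_le (by omega), Prod.mk.injEq] at h
      omega
    · intro k h
      have := gK_level n0 m t k
      rw [h] at this
      push_cast at this
      omega

lemma stgK1_start (n0 m t : ℕ) : stgU (cns ((t : ℤ) + 1, -(t : ℤ) - 1) (fK n0 m t)) (gK n0 m t) 1 =
    cns ((t : ℤ) + 1, -(t : ℤ) - 1) (fK n0 m t) := by
  funext k
  unfold stgU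
  by_cases hk : k = 0
  · subst hk
    rw [if_pos (by omega), gK_le (by omega)]
    unfold cns
    rw [if_pos rfl]
    ext <;> simp
  · rw [if_neg (by omega)]

lemma stgK1_end (n0 m t : ℕ) : stgU (cns ((t : ℤ) + 1, -(t : ℤ) - 1) (fK n0 m t)) (gK n0 m t)
    (1 + (2 * m + 1)) = gK n0 m t := by
  funext k
  unfold stgU
  by_cases hk : k ≤ m
  · rw [if_pos (by omega)]
  · rw [if_neg (by omega), gK_gt (by omega)]
    unfold cns
    rw [if_neg (by omega)]

lemma stgK2_start (n0 m t : ℕ) : stgU (gK n0 m t) (fK n0 m (t + 1)) 0 = gK n0 m t := by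
  funext k
  unfold stgU
  rw [if_neg (by omega)]

lemma stgK2_end (n0 m t : ℕ) (hn : n0 ≤ m) :
    stgU (gK n0 m t) (fK n0 m (t + 1)) (0 + (2 * m + 1)) = fK n0 m (t + 1) := by
  funext k
  unfold stgU
  by_cases hk : k ≤ m
  · rw [if_pos (by omega)]
  · rw [if_neg (by omega), gK_gt (by omega)]
    unfold fK
    by_cases h1 : k ≤ m + (t + 1)
    · rw [if_neg hk, if_pos h1]
      by_cases h2 : k - 1 ≤ m
      · rw [if_pos h2]
        ext <;> simp only <;> push_cast <;> omega
      · rw [if_neg h2, if_pos (by omega)]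
        ext <;> simp only <;> push_cast <;> omega
    · rw [if_neg hk, if_neg h1]
      by_cases h3 : k + n0 ≤ 2 * m + (t + 1)
      · rw [if_pos h3, if_neg (by omega), if_neg (by omega), if_pos (by omega)]
        ext <;> simp only <;> push_cast <;> omega
      · rw [if_neg h3, if_neg (by omega), if_neg (by omega), if_neg (by omega)]

lemma rowK1 (n0 m t : ℕ) {F : Finset (Sym2 (ℤ × ℤ))} (hF : ∀ u v, s(u, v) ∈ F → u.1 - u.2 ≤ 2 * t + 1) :
    upR 1 (2 * m + 1) (IP.In 0 (lawA (LW n0) F (fK n0 m t))) =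
      lawA (LW n0) (F ∪ U1 m t) (gK n0 m t) := by
  have h1 : lawA (LW n0) F (cns ((t : ℤ) + 1, -(t : ℤ) - 1) (fK n0 m t)) =
      IP.In 0 (lawA (LW n0) F (fK n0 m t)) := by
    apply lawA_ins
    · intro u h
      have := hF _ _ h
      simp only at this
      omega
    · rw [mem_LW]
      simp only
      omega
    · intro k h
      have := fK_level n0 m t k
      rw [h] at this
      simp only at this
      omega
  have h2 := sweepU (2 * m + 1) (admK1 n0 m t hF)
  rw [stgK1_start, stgK1_end, h1, ← U1_eq] at h2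
  exact h2.symm

lemma rowK2 (n0 m t : ℕ) (hn : n0 ≤ m) {F : Finset (Sym2 (ℤ × ℤ))}
    (hF : ∀ u v, s(u, v) ∈ F → u.1 - u.2 ≤ 2 * t + 2) :
    upR 0 (2 * m + 1) (lawA (LW n0) F (gK n0 m t)) =
      lawA (LW n0) (F ∪ U2 m t (2 * m + 1)) (fK n0 m (t + 1)) := by
  have h2 := sweepU (2 * m + 1) (admK2 n0 m t hF)
  rw [stgK2_start, stgK2_end n0 m t hn, ← U2_eq'] at h2
  exact h2.symm

theorem DD_stepK (n0 m t : ℕ) (hn : n0 ≤ m) {a : ℤ} :
    DD m (lawA (LW n0) (edgesIn (reg n0 a 1) ∪ edgesIn (reg m 1 (2 * t + 1))) (fK n0 m t)) =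
      lawA (LW n0) (edgesIn (reg n0 a 1) ∪ edgesIn (reg m 1 (2 * (t + 1 : ℕ) + 1)))
        (fK n0 m (t + 1)) := by
  unfold DD
  rw [LinearMap.comp_apply, LinearMap.comp_apply, rowK1 n0 m t, union_assoc, edges1 m t (by omega),
    rowK2 n0 m t hn, union_assoc, edges2 m t (by omega)]
  · push_cast
    congr 3
  · intro u v h
    rw [mem_union] at h
    rcases h with h | h
    · have := reg_level h
      omega
    · exact reg_level h
  · intro u v h
    rw [mem_union] at h
    rcases h with h | h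
    · have := reg_level h
      omega
    · exact reg_level h

lemma reg_one_empty (m : ℕ) : edgesIn (reg m 1 1) = ∅ := by
  rw [Finset.eq_empty_iff_forall_notMem]
  intro e
  induction e using Sym2.ind with
  | _ u v =>
    rw [mem_edgesIn, mem_reg, mem_reg]
    rintro ⟨h1, h2, h3⟩
    have := adj_level h3
    omega

theorem DD_powK (n0 m t : ℕ) (hn : n0 ≤ m) (a : ℤ) :
    (DD m ^ t) (lawA (LW n0) (edgesIn (reg n0 a 1)) (fK n0 m 0)) =
      lawA (LW n0) (edgesIn (reg n0 a 1) ∪ edgesIn (reg m 1 (2 * t + 1))) (fK n0 m t) := by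
  induction t with
  | zero =>
    rw [pow_zero, Module.End.one_apply]
    push_cast
    rw [reg_one_empty, union_empty]
  | succ t ih =>
    rw [pow_succ', Module.End.mul_apply, ih, DD_stepK n0 m t hn]

/-- the operator of the part of the lower piece above the level `1` -/
noncomputable def KJ2 (n0 p q : ℕ) : IP.M →ₗ[ℝ] IP.M := (DD (n0 + p) ^ (q + 1)) ∘ₗ KA n0 p

lemma KJ2_apply (n0 p q : ℕ) (v : IP.M) : KJ2 n0 p q v = (DD (n0 + p) ^ (q + 1)) (KA n0 p v) := rfl

/-- **The law of the lower piece** (upper leg wider than the lower one). -/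
theorem law_low2 (n0 p q : ℕ) (a : ℤ) :
    lawA (LW n0) (low2 n0 (n0 + p) q a) (fK n0 (n0 + p) (q + 1)) =
      KJ2 n0 p q (law (2 * n0 + 1) (edgesIn (reg n0 a 1)) (fr n0 0)) := by
  rw [KJ2_apply, ← lawA_arcs, DD_powK n0 (n0 + p) (q + 1) (by omega)]
  unfold low2
  push_cast
  rw [show 2 * ((q : ℤ) + 1) + 1 = 2 * q + 3 by ring]

/-- **The crossing probability of the infinite T-junction** (`i = 2(n0+p)+1`, `L = 2 n0+1`, `h = 2q+1`) is
the trilinear form of the three stationary vectors. -/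
theorem pJ_tendsto3 (n0 p q : ℕ) :
    Tendsto (fun M : ℕ => JN.pJ (2 * ((n0 + p : ℕ) : ℤ) + 1) (2 * n0 + 1) (2 * q + 1) M) atTop
      (𝓝 (IP.Slit.tri (n0 + p) (p + q) (IP.P (n0 + p) 0) (IP.P q 0) (KJ2 n0 p q (IP.P n0 0)))) :=
  pJ_tendsto2 n0 p q (KJ2 n0 p q) (fun a _ => law_low2 n0 p q a)

end H47Perc.JJ
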