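import Pool.Agent.Helper87.J2.Conv
import Pool.Agent.Helper87.J2.Lower

/-!
The T-junction with the upper leg wider than the lower one: the crossing probability is the limit of the
inhomogeneous formula when the parameters of the columns above the horizontal wall tend to zero.
-/

set_option autoImplicit false

namespace H47Perc.JJ
open Finset Filter Topology H47Perc.DS H47Perc.SL

/-- `r` nested arcs and `t` strands `π/6` in the middle; `y` are the parameters of the columns -/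
noncomputable def bT (n0 r : ℕ) (y : ℕ → ℝ) (t : ℕ) : ℕ → ℝ := fun j =>
  if j < 2 * n0 + 1 + r then y j
  else if j < 2 * n0 + 1 + r + t then Real.pi / 6
  else y (2 * n0 + r - (j - (2 * n0 + 1 + r + t))) + Real.pi / 3

lemma bT_cos {n0 r : ℕ} {y : ℕ → ℝ} (hy : ∀ k < 2 * n0 + 1 + r, |y k| < Real.pi / 6) (t j : ℕ)
    (hj : j < 2 * n0 + 1 + r + t + r) : 0 < Real.cos (bT n0 r y t j) := by
  have hpi := Real.pi_pos
  unfold bT
  split_ifs with h1 h2
  · have := abs_lt.1 (hy _ h1)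
    exact Real.cos_pos_of_mem_Ioo ⟨by linarith [this.1], by linarith [this.2]⟩
  · exact Real.cos_pos_of_mem_Ioo ⟨by linarith, by linarith⟩
  · have := abs_lt.1 (hy (2 * n0 + r - (j - (2 * n0 + 1 + r + t))) (by omega))
    exact Real.cos_pos_of_mem_Ioo ⟨by linarith [this.1], by linarith [this.2]⟩

lemma s_six (b : ℝ) : IP.s (b - -(Real.pi / 6)) * IP.s (-b - -(Real.pi / 6)) = Real.cos b ^ 2 := by
  unfold IP.s
  rw [show Real.pi / 3 + (b - -(Real.pi / 6)) = b + Real.pi / 2 by ring,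
    show Real.pi / 3 + (-b - -(Real.pi / 6)) = -b + Real.pi / 2 by ring, Real.sin_add_pi_div_two,
    Real.sin_add_pi_div_two, Real.cos_neg]
  ring

lemma KK_six {n : ℕ} {b : ℕ → ℝ} (hb : ∀ j < 2 * n + 1, 0 < Real.cos (b j)) :
    IP.KK n (-(Real.pi / 6)) b ≠ 0 := by
  unfold IP.KK
  rw [Finset.prod_ne_zero_iff]
  intro j hj
  rw [mem_range] at hj
  rw [s_six]
  exact pow_ne_zero _ (hb j hj).ne'

lemma pr_In' {n : ℕ} {b : ℕ → ℝ} (hb : ∀ j < 2 * n + 1, 0 < Real.cos (b j)) :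
    Pr (IP.In 0 (IP.V n b)) (IP.V (n + 1) (cc b)) := by
  refine ⟨(IP.KK n (-(Real.pi / 6)) b)⁻¹, ?_⟩
  rw [vj_In, smul_smul, inv_mul_cancel₀ (KK_six hb), one_smul]

/-! ### the arcs -/

lemma KK_arc {n0 r : ℕ} {y : ℕ → ℝ} (hy : ∀ k ≤ 2 * n0 + 1 + r, |y k| < Real.pi / 6)
    (hg : ∀ k, 2 * n0 + 1 ≤ k → k < 2 * n0 + 1 + r → y k + y (2 * n0 + 1 + r) ≠ 0) :
    IP.KK (n0 + r) (y (2 * n0 + 1 + r)) (bT n0 r y 0) ≠ 0 := by
  have hpi := Real.pi_pos
  unfold IP.KK
  rw [Finset.prod_ne_zero_iff]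
  intro j hj
  rw [mem_range] at hj
  have hr := abs_lt.1 (hy (2 * n0 + 1 + r) le_rfl)
  unfold bT
  rw [add_zero]
  by_cases h1 : j < 2 * n0 + 1 + r
  · rw [if_pos h1]
    have h2 := abs_lt.1 (hy j h1.le)
    unfold IP.s
    exact mul_ne_zero
      (Real.sin_pos_of_pos_of_lt_pi (by linarith [h2.1, hr.2]) (by linarith [h2.2, hr.1])).ne'
      (Real.sin_pos_of_pos_of_lt_pi (by linarith [h2.2, hr.2]) (by linarith [h2.1, hr.1])).ne'
  · rw [if_neg h1, if_neg h1]
    set k := 2 * n0 + r - (j - (2 * n0 + 1 + r)) with hk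
    have hkr : k < 2 * n0 + 1 + r := by omega
    have h2 := abs_lt.1 (hy k hkr.le)
    unfold IP.s
    refine mul_ne_zero (Real.sin_pos_of_pos_of_lt_pi ?_ ?_).ne' ?_
    · linarith [h2.1, hr.2]
    · linarith [h2.2, hr.1]
    · rw [show Real.pi / 3 + (-(y k + Real.pi / 3) - y (2 * n0 + 1 + r)) =
        -(y k + y (2 * n0 + 1 + r)) by ring, Real.sin_neg, neg_ne_zero]
      intro h3
      rw [Real.sin_eq_zero_iff_of_lt_of_lt (by linarith [h2.1, hr.1]) (by linarith [h2.2, hr.2])] at h3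
      exact hg k (by omega) hkr h3

lemma pr_arc {n0 r : ℕ} {y : ℕ → ℝ} (hy : ∀ k ≤ 2 * n0 + 1 + r, |y k| < Real.pi / 6)
    (hg : ∀ k, 2 * n0 + 1 ≤ k → k < 2 * n0 + 1 + r → y k + y (2 * n0 + 1 + r) ≠ 0) :
    Pr (IP.In (2 * n0 + 1 + r) (IP.V (n0 + r) (bT n0 r y 0))) (IP.V (n0 + (r + 1)) (bT n0 (r + 1) y 0)) := by
  refine ⟨(IP.KK (n0 + r) (y (2 * n0 + 1 + r)) (bT n0 r y 0))⁻¹, ?_⟩
  have h := IP.V_all (n := n0 + r) (i := 2 * n0 + 1 + r) (by omega) (bT n0 r y 0)
    (y (2 * n0 + 1 + r))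
  have e : IP.V (n0 + (r + 1)) (bT n0 (r + 1) y 0) =
      IP.V (n0 + r + 1) (IP.ins2 (2 * n0 + 1 + r) (y (2 * n0 + 1 + r)) (bT n0 r y 0)) := by
    rw [← add_assoc]
    apply vj_congr
    intro j hj
    unfold bT IP.ins2
    simp only [add_zero]
    by_cases h1 : j < 2 * n0 + 1 + r
    · rw [if_pos (by omega), if_pos h1, if_pos h1]
    · rw [if_neg h1]
      by_cases h2 : j = 2 * n0 + 1 + r
      · rw [if_pos (by omega), if_pos h2, h2]
      · rw [if_neg (by omega), if_neg (by omega), if_neg h2]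
        by_cases h3 : j = 2 * n0 + 1 + r + 1
        · rw [if_pos h3, h3]
          congr 2
          omega
        · rw [if_neg h3, if_neg (by omega), if_neg (by omega)]
          congr 2
          omega
  rw [e, h, smul_smul, inv_mul_cancel₀ (KK_arc hy hg), one_smul]

/-- the arcs one by one -/
noncomputable def KB (n0 : ℕ) : ℕ → IP.M →ₗ[ℝ] IP.M
  | 0 => LinearMap.id
  | r + 1 => IP.In (2 * n0 + 1 + r) ∘ₗ KB n0 r

lemma KB_succ (n0 r : ℕ) (v : IP.M) : KB n0 (r + 1) v = IP.In (2 * n0 + 1 + r) (KB n0 r v) := rfl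

lemma KA_eq (n0 p : ℕ) (v : IP.M) : KA n0 p v = KB n0 (2 * p) v := by
  induction p with
  | zero => rfl
  | succ p ih =>
    rw [KA_succ, ih, show 2 * (p + 1) = 2 * p + 1 + 1 by ring, KB_succ, KB_succ,
      show 2 * n0 + 1 + (2 * p + 1) = 2 * (n0 + p + 1) by ring,
      show 2 * n0 + 1 + 2 * p = 2 * (n0 + p) + 1 by ring]

lemma pr_KB {n0 : ℕ} {y : ℕ → ℝ} (r : ℕ) (hy : ∀ k < 2 * n0 + 1 + r, |y k| < Real.pi / 6)
    (hg : ∀ k k', 2 * n0 + 1 ≤ k → k < k' → k' < 2 * n0 + 1 + r → y k + y k' ≠ 0) :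
    Pr (KB n0 r (IP.V n0 y)) (IP.V (n0 + r) (bT n0 r y 0)) := by
  induction r with
  | zero =>
    change Pr (IP.V n0 y) _
    refine ⟨1, ?_⟩
    rw [one_smul]
    apply vj_congr
    intro j hj
    unfold bT
    rw [if_pos (by omega)]
  | succ r ih =>
    rw [KB_succ]
    refine ((ih (fun k hk => hy k (by omega)) (fun k k' h0 h1 h2 => hg k k' h0 h1 (by omega))).lin _).trans
      ?_
    exact pr_arc (fun k hk => hy k (by omega)) (fun k h0 hk => hg k _ h0 hk (by omega))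

/-! ### the rows -/

/-- one double row -/
noncomputable def DX (m : ℕ) (d : ℕ → ℝ) : IP.M →ₗ[ℝ] IP.M :=
  upX 0 d (2 * m + 1) ∘ₗ upX 1 d (2 * m + 1) ∘ₗ IP.In 0

lemma DX_apply (m : ℕ) (d : ℕ → ℝ) (v : IP.M) :
    DX m d v = upX 0 d (2 * m + 1) (upX 1 d (2 * m + 1) (IP.In 0 v)) := rfl

lemma pr_row {n0 p : ℕ} {y : ℕ → ℝ} (hx : ∀ k < 2 * n0 + 1 + 2 * p, |y k| < Real.pi / 6) (t : ℕ) :
    Pr (DX (n0 + p) (fun j => Real.pi / 6 - y j) (IP.V (n0 + 2 * p + t) (bT n0 (2 * p) y (2 * t))))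
      (IP.V (n0 + 2 * p + (t + 1)) (bT n0 (2 * p) y (2 * (t + 1)))) := by
  set b := bT n0 (2 * p) y (2 * t) with hb
  set d : ℕ → ℝ := fun j => Real.pi / 6 - y j with hd
  rw [DX_apply]
  have h1 : Pr (IP.In 0 (IP.V (n0 + 2 * p + t) b)) (IP.V (n0 + 2 * p + t + 1) (cc b)) :=
    pr_In' (fun j hj => bT_cos hx (2 * t) j (by omega))
  have hcc : ∀ j, 2 ≤ j → j < 2 * (n0 + p) + 3 → cc b j = y (j - 2) := by
    intro j h2 h3
    unfold cc
    rw [if_neg (by omega), hb]
    unfold bT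
    rw [if_pos (by omega)]
  have h2 : upX 1 d (2 * (n0 + p) + 1) (IP.V (n0 + 2 * p + t + 1) (cc b)) =
      (∏ j ∈ range (2 * (n0 + p) + 1), IP.s (d j)) •
        IP.V (n0 + 2 * p + t + 1) (mvX 1 (2 * (n0 + p) + 1) (cc b)) := by
    apply upX_V 1 _ (by omega)
    intro j hj
    rw [hcc (1 + 1 + j) (by omega) (by omega), show 1 + 1 + j - 2 = j by omega]
    unfold cc
    rw [if_pos (by omega)]
  have h3 : upX 0 d (2 * (n0 + p) + 1)
      (IP.V (n0 + 2 * p + t + 1) (mvX 1 (2 * (n0 + p) + 1) (cc b))) =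
      (∏ j ∈ range (2 * (n0 + p) + 1), IP.s (d j)) •
        IP.V (n0 + 2 * p + t + 1) (mvX 0 (2 * (n0 + p) + 1) (mvX 1 (2 * (n0 + p) + 1) (cc b))) := by
    apply upX_V 0 _ (by omega)
    intro j hj
    have e1 : mvX 1 (2 * (n0 + p) + 1) (cc b) 0 = Real.pi / 6 := by
      unfold mvX cc
      rw [if_pos (by omega), if_pos (by omega)]
    have e2 : mvX 1 (2 * (n0 + p) + 1) (cc b) (0 + 1 + j) = y j := by
      unfold mvX
      rw [if_neg (by omega), if_pos (by omega), hcc _ (by omega) (by omega)]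
      congr 1
      omega
    rw [e1, e2]
  have e : IP.V (n0 + 2 * p + t + 1) (mvX 0 (2 * (n0 + p) + 1) (mvX 1 (2 * (n0 + p) + 1) (cc b))) =
      IP.V (n0 + 2 * p + (t + 1)) (bT n0 (2 * p) y (2 * (t + 1))) := by
    rw [← add_assoc]
    apply vj_congr
    intro j hj
    unfold mvX
    rw [if_neg (by omega)]
    by_cases h1 : j < 0 + (2 * (n0 + p) + 1)
    · rw [if_pos h1, if_neg (by omega), if_pos (by omega), hcc _ (by omega) (by omega)]
      unfold bT
      rw [if_pos (by omega)]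
      congr 1
    · rw [if_neg h1]
      by_cases h2 : j = 0 + (2 * (n0 + p) + 1)
      · rw [if_pos h2, if_pos (by omega)]
        unfold cc bT
        rw [if_pos (by omega), if_neg (by omega), if_pos (by omega)]
      · rw [if_neg h2, if_neg (by omega), if_neg (by omega)]
        unfold cc
        by_cases h3 : j = 1 + (2 * (n0 + p) + 1)
        · rw [if_pos h3, if_pos (by omega)]
          unfold bT
          rw [if_neg (by omega), if_pos (by omega)]
        · rw [if_neg h3, if_neg (by omega), hb]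
          unfold bT
          rw [if_neg (show ¬ j - 2 < 2 * n0 + 1 + 2 * p by omega),
            if_neg (show ¬ j < 2 * n0 + 1 + 2 * p by omega)]
          by_cases h4 : j < 2 * n0 + 1 + 2 * p + 2 * (t + 1)
          · rw [if_pos (by omega), if_pos h4]
          · rw [if_neg (by omega), if_neg h4]
            congr 2
            omega
  have h4 := (h1.lin (upX 1 d (2 * (n0 + p) + 1))).lin (upX 0 d (2 * (n0 + p) + 1))
  refine h4.trans ?_
  rw [h2, map_smul, h3, e]
  exact ⟨_, smul_smul _ _ _⟩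

/-- the inhomogeneous operator -/
noncomputable def KX (n0 p t : ℕ) (y : ℕ → ℝ) : IP.M →ₗ[ℝ] IP.M :=
  (DX (n0 + p) (fun j => Real.pi / 6 - y j) ^ t) ∘ₗ KA n0 p

lemma pr_KX {n0 p : ℕ} {y : ℕ → ℝ} (hx : ∀ k < 2 * n0 + 1 + 2 * p, |y k| < Real.pi / 6)
    (hg : ∀ k k', 2 * n0 + 1 ≤ k → k < k' → k' < 2 * n0 + 1 + 2 * p → y k + y k' ≠ 0) (t : ℕ) :
    Pr (KX n0 p t y (IP.V n0 y)) (IP.V (n0 + 2 * p + t) (bT n0 (2 * p) y (2 * t))) := by
  unfold KX
  rw [LinearMap.comp_apply]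
  induction t with
  | zero =>
    rw [pow_zero, Module.End.one_apply, KA_eq]
    exact pr_KB (2 * p) hx hg
  | succ t ih =>
    rw [pow_succ', Module.End.mul_apply]
    exact (ih.lin _).trans (pr_row hx t)

section
variable {ι : Type*} {l : Filter ι}

lemma cv_KX {y : ι → ℕ → ℝ} (hy : ∀ j, Tendsto (fun i => y i j) l (𝓝 0)) (n0 p t : ℕ)
    {v : ι → IP.M} {w : IP.M} (hv : Cv l v w) :
    Cv l (fun i => KX n0 p t (y i) (v i)) ((DD (n0 + p) ^ t) (KA n0 p w)) := by
  have hd : ∀ j, Tendsto (fun i => Real.pi / 6 - y i j) l (𝓝 (Real.pi / 6)) := by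
    intro j
    have := (tendsto_const_nhds (x := Real.pi / 6)).sub (hy j)
    rwa [sub_zero] at this
  induction t with
  | zero => exact hv.lin _
  | succ t ih =>
    have e : ∀ i, KX n0 p (t + 1) (y i) (v i) =
        upX 0 (fun j => Real.pi / 6 - y i j) (2 * (n0 + p) + 1)
          (upX 1 (fun j => Real.pi / 6 - y i j) (2 * (n0 + p) + 1)
            (IP.In 0 (KX n0 p t (y i) (v i)))) := by
      intro i
      unfold KX
      rw [LinearMap.comp_apply, pow_succ', Module.End.mul_apply]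
      rfl
    simp only [e]
    rw [pow_succ', Module.End.mul_apply]
    exact ((ih.lin (IP.In 0)).upX 1 hd _).upX 0 hd _

/-! ### the right leg -/

/-- the parameters of the right leg -/
noncomputable def bR (q : ℕ) : ℕ → ℝ := fun j => if j < 2 * q + 1 then 0 else -(Real.pi / 6)

lemma In_wall {n : ℕ} {v : IP.M} (hv : v ∈ IP.Sup (IP.W n)) : IP.In (2 * n + 1) v = v := by
  unfold IP.In
  rw [Finsupp.lmapDomain_apply]
  have h : Finsupp.mapDomain (IP.ins (2 * n + 1)) v = Finsupp.mapDomain id v := by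
    apply Finsupp.mapDomain_congr
    intro σ hσ
    have hW : σ ∈ IP.W n := ((Finsupp.mem_supported ℝ v).1 hv) hσ
    unfold IP.ins
    rw [if_neg (by omega), show (2 * n + 1) / 2 = n by omega]
    ext x y
    rw [Setoid.comap_rel]
    have hc : ∀ z, σ (IP.coll n z) z := by
      intro z
      unfold IP.coll
      by_cases h : z ≤ n
      · rw [if_pos h]
      · rw [if_neg h]
        exact hW _ _ (by omega) (by omega)
    constructor
    · intro h
      exact σ.trans' (σ.symm' (hc x)) (σ.trans' h (hc y))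
    · intro h
      exact σ.trans' (hc x) (σ.trans' h (σ.symm' (hc y)))
  rw [h, Finsupp.mapDomain_id]

lemma pr_right (q p : ℕ) : Pr (IP.P q zb) (IP.V (q + p) (bR q)) := by
  induction p with
  | zero =>
    rw [(vj_P q (b := bR q) (fun j hj => if_pos hj)).2]
    exact ⟨_, rfl⟩
  | succ p ih =>
    refine ih.trans ⟨(IP.KK (q + p) (-(Real.pi / 6)) (bR q))⁻¹, ?_⟩
    have h := IP.V_all (n := q + p) (i := 2 * (q + p) + 1) (by omega) (bR q) (-(Real.pi / 6))
    have e : IP.V (q + (p + 1)) (bR q) =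
        IP.V (q + p + 1) (IP.ins2 (2 * (q + p) + 1) (-(Real.pi / 6)) (bR q)) := by
      rw [← add_assoc, ← IP.V_ngR (q + p + 1) (bR q)]
      apply vj_congr
      intro j hj
      unfold IP.ng IP.ins2 bR
      by_cases h1 : j = 2 * (q + p + 1)
      · rw [h1, Function.update_self, if_neg (by omega), if_neg (by omega), if_neg (by omega),
          if_pos (by omega)]
        ring
      · rw [Function.update_of_ne h1]
        by_cases h2 : j < 2 * (q + p) + 1
        · rw [if_pos h2]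
        · rw [if_neg h2, if_neg (by omega), if_pos (by omega)]
    have hc : ∀ j < 2 * (q + p) + 1, 0 < Real.cos (bR q j) := by
      intro j _
      have hpi := Real.pi_pos
      unfold bR
      split_ifs
      · rw [Real.cos_zero]
        exact one_pos
      · exact Real.cos_pos_of_mem_Ioo ⟨by linarith, by linarith⟩
    rw [e, h, smul_smul, inv_mul_cancel₀ (KK_six hc), one_smul, In_wall (IP.V_Sup _ _)]

/-! ### the limit -/

/-- the parameters of `FF` -/
noncomputable def bF (n0 p q : ℕ) (y : ℕ → ℝ) : ℕ → ℝ := bT n0 (2 * p) y (2 * q + 1)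

lemma ins1_bF (n0 p q : ℕ) (y : ℕ → ℝ) :
    IP.Junc.ins1 (2 * (n0 + p) + 1) (Real.pi / 6) (bF n0 p q y) = bT n0 (2 * p) y (2 * (q + 1)) := by
  funext j
  unfold IP.Junc.ins1 bF bT
  by_cases h1 : j < 2 * (n0 + p) + 1
  · rw [if_pos h1, if_pos (by omega), if_pos (by omega)]
  · rw [if_neg h1, if_neg (by omega : ¬ j < 2 * n0 + 1 + 2 * p)]
    by_cases h2 : j = 2 * (n0 + p) + 1
    · rw [if_pos h2, if_pos (by omega)]
    · rw [if_neg h2, if_neg (by omega)]
      by_cases h3 : j < 2 * n0 + 1 + 2 * p + 2 * (q + 1)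
      · rw [if_pos (by omega), if_pos h3]
      · rw [if_neg (by omega), if_neg h3]
        congr 2
        omega

lemma tri_FF_gen (m k : ℕ) (v1 v2 v : IP.M) (h1 : IP.tot v1 ≠ 0) (h2 : IP.tot v2 ≠ 0)
    (h : IP.tot v ≠ 0) :
    1 - IP.Junc.triC m k v1 v2 v / (IP.tot v1 * IP.tot v2 * IP.tot v) =
      IP.Slit.tri m k ((IP.tot v1)⁻¹ • v1) ((IP.tot v2)⁻¹ • v2) ((IP.tot v)⁻¹ • v) := by
  rw [tri_smul1, tri_smul2, tri_smul3]
  unfold IP.Junc.triC
  field_simp
  ring

/-- **The crossing probability of the T-junction `i ≥ L` as a limit of the inhomogeneous formula.**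
The columns have the parameters `y i 0, ..., y i (2(n0+p))`, which tend to zero and satisfy
`y i k + y i k' ≠ 0` for the columns above the horizontal wall. -/
theorem link2 (n0 p q : ℕ) {y : ι → ℕ → ℝ} (hy : ∀ j, Tendsto (fun i => y i j) l (𝓝 0))
    (hg : ∀ᶠ i in l, ∀ k k', 2 * n0 + 1 ≤ k → k < k' → k' < 2 * n0 + 1 + 2 * p →
      y i k + y i k' ≠ 0) :
    Tendsto (fun i => 1 - IP.Junc.FF (n0 + p) (p + q) (bF n0 p q (y i)) (Real.pi / 6) /
        (IP.Z (n0 + p) (fun j => -bF n0 p q (y i) j) *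
          IP.Z (p + q) (fun j => Real.pi / 6 - bF n0 p q (y i) (2 * (n0 + p) + 1 + j)) *
          IP.Z (n0 + p + (p + q) + 1)
            (IP.Junc.ins1 (2 * (n0 + p) + 1) (Real.pi / 6) (bF n0 p q (y i))))) l
      (𝓝 (IP.Slit.tri (n0 + p) (p + q) (IP.P (n0 + p) 0) (IP.P q 0) (KJ2 n0 p q (IP.P n0 0)))) := by
  -- the upper leg
  have hU : Cv l (fun i => IP.V (n0 + p) (fun j => -bF n0 p q (y i) j)) (IP.V (n0 + p) zb) := by
    have h1 := Cv.V (l := l) (n0 + p) (b := fun i j => if j < 2 * (n0 + p) + 1 then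
      -bF n0 p q (y i) j else 0) (b0 := zb) (by
        intro j
        by_cases hj : j < 2 * (n0 + p) + 1
        · simp only [if_pos hj]
          have e : ∀ i, bF n0 p q (y i) j = y i j := by
            intro i
            unfold bF bT
            rw [if_pos (by omega)]
          simp only [e]
          have := (hy j).neg
          rw [neg_zero] at this
          exact this
        · simp only [if_neg hj]
          exact tendsto_const_nhds)
    refine (show (fun i => IP.V (n0 + p) (fun j => -bF n0 p q (y i) j)) = _ from ?_) ▸ h1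
    funext i
    apply vj_congr
    intro j hj
    rw [if_pos hj]
  have hU0 := vj_P (n0 + p) (b := zb) (fun j _ => rfl)
  -- the right leg
  have hR : Cv l (fun i => IP.V (p + q) (fun j => Real.pi / 6 - bF n0 p q (y i) (2 * (n0 + p) + 1 + j)))
      (IP.V (p + q) (bR q)) := by
    apply Cv.V
    intro j
    unfold bF bT bR
    by_cases hj : j < 2 * q + 1
    · simp only [if_neg (show ¬ 2 * (n0 + p) + 1 + j < 2 * n0 + 1 + 2 * p by omega),
        if_pos (show 2 * (n0 + p) + 1 + j < 2 * n0 + 1 + 2 * p + (2 * q + 1) by omega), if_pos hj,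
        sub_self]
      exact tendsto_const_nhds
    · simp only [if_neg (show ¬ 2 * (n0 + p) + 1 + j < 2 * n0 + 1 + 2 * p by omega),
        if_neg (show ¬ 2 * (n0 + p) + 1 + j < 2 * n0 + 1 + 2 * p + (2 * q + 1) by omega), if_neg hj]
      have h1 := (hy (2 * n0 + 2 * p - (2 * (n0 + p) + 1 + j - (2 * n0 + 1 + 2 * p + (2 * q + 1))))).add_const
        (Real.pi / 3)
      have h2 := (tendsto_const_nhds (x := Real.pi / 6)).sub h1
      rw [show Real.pi / 6 - (0 + Real.pi / 3) = -(Real.pi / 6) by ring] at h2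
      exact h2
  have hR0 : IP.Z (p + q) (bR q) ≠ 0 ∧ IP.P q zb = (IP.Z (p + q) (bR q))⁻¹ • IP.V (p + q) (bR q) := by
    have h1 := pr_right q p
    rw [add_comm q p] at h1
    exact h1.norm (IP.tot_P _ IP.zero_Cube)
  -- the lower piece
  have hB0 := vj_P n0 (b := zb) (fun j _ => rfl)
  have hB : Cv l (fun i => IP.V n0 (y i)) (IP.V n0 zb) := Cv.V n0 (b0 := zb) hy
  have hL := cv_KX hy n0 p (q + 1) (hB.norm hB0.1)
  have ezb : (IP.tot (IP.V n0 zb))⁻¹ • IP.V n0 zb = IP.P n0 zb := hB0.2.symm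
  rw [ezb] at hL
  have htot : IP.tot ((DD (n0 + p) ^ (q + 1)) (KA n0 p (IP.P n0 zb))) = 1 := by
    rw [tot_DD_pow, KA_eq]
    have : ∀ r v, IP.tot (KB n0 r v) = IP.tot v := by
      intro r v
      induction r with
      | zero => rfl
      | succ r ih => rw [KB_succ, IP.tot_In, ih]
    rw [this]
    exact IP.tot_P _ IP.zero_Cube
  have hLn := hL.norm (by rw [htot]; exact one_ne_zero)
  rw [htot, inv_one, one_smul] at hLn
  have hUn := hU.norm hU0.1
  have hRn := hR.norm hR0.1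
  have hmain := Cv.tri hUn hRn hLn (n0 + p) (p + q)
  have e1 : (IP.tot (IP.V (n0 + p) zb))⁻¹ • IP.V (n0 + p) zb = IP.P (n0 + p) 0 := hU0.2.symm
  have e2 : (IP.tot (IP.V (p + q) (bR q)))⁻¹ • IP.V (p + q) (bR q) = IP.P q 0 := hR0.2.symm
  rw [e1, e2] at hmain
  refine Tendsto.congr' ?_ hmain
  have hx6 : ∀ᶠ i in l, ∀ k < 2 * n0 + 1 + 2 * p, |y i k| < Real.pi / 6 := by
    have hk : ∀ k, ∀ᶠ i in l, |y i k| < Real.pi / 6 := by
      intro k
      have h1 := (hy k).abs
      rw [abs_zero] at h1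
      exact h1.eventually (gt_mem_nhds (by positivity))
    have := (Finset.range (2 * n0 + 1 + 2 * p)).eventually_all.2 (fun k _ => hk k)
    filter_upwards [this] with i hi k hk
    exact hi k (mem_range.2 hk)
  have ht : ∀ᶠ i in l, IP.tot (KX n0 p (q + 1) (y i)
      ((IP.tot (IP.V n0 (y i)))⁻¹ • IP.V n0 (y i))) ≠ 0 := by
    have h1 := hL.tot
    rw [htot] at h1
    exact h1.eventually (isOpen_ne.mem_nhds one_ne_zero)
  have htU : ∀ᶠ i in l, IP.tot (IP.V (n0 + p) (fun j => -bF n0 p q (y i) j)) ≠ 0 :=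
    hU.tot.eventually (isOpen_ne.mem_nhds hU0.1)
  have htR : ∀ᶠ i in l, IP.tot (IP.V (p + q)
      (fun j => Real.pi / 6 - bF n0 p q (y i) (2 * (n0 + p) + 1 + j))) ≠ 0 :=
    hR.tot.eventually (isOpen_ne.mem_nhds hR0.1)
  filter_upwards [hg, hx6, ht, htU, htR] with i gi xi ti tU tR
  have hPr : Pr (KX n0 p (q + 1) (y i) ((IP.tot (IP.V n0 (y i)))⁻¹ • IP.V n0 (y i)))
      (IP.V (n0 + 2 * p + (q + 1)) (bT n0 (2 * p) (y i) (2 * (q + 1)))) := by
    rw [map_smul]
    exact (show Pr _ _ from ⟨_, rfl⟩).trans (pr_KX (n0 := n0) xi gi (q + 1))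
  obtain ⟨c, hc⟩ := hPr
  set w := KX n0 p (q + 1) (y i) ((IP.tot (IP.V n0 (y i)))⁻¹ • IP.V n0 (y i)) with hw
  set vL := IP.V (n0 + 2 * p + (q + 1)) (bT n0 (2 * p) (y i) (2 * (q + 1))) with hvL
  have hc0 : c * IP.tot vL ≠ 0 := by
    have h1 := ti
    rw [hc, map_smul, smul_eq_mul] at h1
    exact h1
  have ec : (IP.tot w)⁻¹ • w = (IP.tot vL)⁻¹ • vL := by
    rw [hc, map_smul, smul_eq_mul, smul_smul]
    congr 1
    have h1 := left_ne_zero_of_mul hc0
    have h2 := right_ne_zero_of_mul hc0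
    field_simp
  have eL : IP.V (n0 + p + (p + q) + 1)
      (IP.Junc.ins1 (2 * (n0 + p) + 1) (Real.pi / 6) (bF n0 p q (y i))) = vL := by
    rw [ins1_bF, hvL]
    congr 1
    ring
  rw [ec]
  unfold IP.Junc.FF IP.Z
  rw [eL, tri_FF_gen _ _ _ _ _ tU tR (right_ne_zero_of_mul hc0)]

end

/-- the parameters with all columns at `a` -/
noncomputable def ba (m q : ℕ) (a : ℝ) : ℕ → ℝ := fun j =>
  if j < 2 * m + 1 then a else if j < 2 * m + 1 + (2 * q + 1) then Real.pi / 6 else a + Real.pi / 3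

lemma bF_const (n0 p q : ℕ) (a : ℝ) : bF n0 p q (fun _ => a) = ba (n0 + p) q a := by
  funext j
  unfold bF bT ba
  rw [show 2 * n0 + 1 + 2 * p = 2 * (n0 + p) + 1 by ring]

/-- **The crossing probability of the T-junction `i ≥ L`**: all columns at `a`, `a → 0`. -/
theorem link_a (n0 p q : ℕ) :
    Tendsto (fun a : ℝ => 1 - IP.Junc.FF (n0 + p) (p + q) (ba (n0 + p) q a) (Real.pi / 6) /
        (IP.Z (n0 + p) (fun j => -ba (n0 + p) q a j) *
          IP.Z (p + q) (fun j => Real.pi / 6 - ba (n0 + p) q a (2 * (n0 + p) + 1 + j)) *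
          IP.Z (n0 + p + (p + q) + 1)
            (IP.Junc.ins1 (2 * (n0 + p) + 1) (Real.pi / 6) (ba (n0 + p) q a)))) (𝓝[≠] 0)
      (𝓝 (IP.Slit.tri (n0 + p) (p + q) (IP.P (n0 + p) 0) (IP.P q 0) (KJ2 n0 p q (IP.P n0 0)))) := by
  have h := link2 n0 p q (l := 𝓝[≠] (0 : ℝ)) (y := fun a _ => a)
    (fun _ => tendsto_id.mono_left nhdsWithin_le_nhds) (by
      filter_upwards [self_mem_nhdsWithin] with a ha k k' _ _ _
      intro h
      exact ha (by simpa using (by linarith : a = 0)))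
  simp only [bF_const] at h
  exact h

end H47Perc.JJ
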