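import Pool.Agent.Helper87.J.Geo

/-!
The T-junction with the upper leg wider than the lower one: the three pieces, gluing of their states.

Coordinates `u = x + y`, `w = x - y`, widths `i = 2m+1` (upper leg), `L = 2 n0 + 1 ≤ i` (lower leg),
`h = 2q+1` (right leg).  The lower piece is the strip `0 ≤ u ≤ L`, `w ≤ 1`, together with the rectangle
`0 ≤ u ≤ i`, `1 ≤ w ≤ 2q+3`.
-/

set_option autoImplicit false

namespace H47Perc.JJ
open Finset H47Perc.DS H47Perc.SL

/-- the edges of the lower piece -/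
noncomputable def low2 (n0 m q : ℕ) (a : ℤ) : Finset (Sym2 (ℤ × ℤ)) :=
  edgesIn (reg n0 a 1) ∪ edgesIn (reg m 1 (2 * q + 3))

/-- the front at the level `w = 2t+1`: it comes back along the line `w = 1` to the point `(n0+1, n0)` -/
def fK (n0 m t : ℕ) (k : ℕ) : ℤ × ℤ :=
  if k ≤ m then ((k : ℤ) + t + 1, (k : ℤ) - t)
  else if k ≤ m + t then (2 * (m : ℤ) + 1 + t - k, (k : ℤ) - t)
  else if k + n0 ≤ 2 * m + t then (2 * (m : ℤ) + t + 1 - k, 2 * (m : ℤ) + t - k)
  else ((n0 : ℤ) + 1, (n0 : ℤ))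

lemma low2_edge {n0 m q : ℕ} {a : ℤ} {ω : Finset (Sym2 (ℤ × ℤ))} (h : ω ⊆ low2 n0 m q a)
    {u v : ℤ × ℤ} (huv : s(u, v) ∈ ω) : 0 ≤ u.1 + u.2 ∧
      ((u.1 + u.2 ≤ 2 * n0 + 1 ∧ u.1 - u.2 ≤ 1) ∨
        (u.1 + u.2 ≤ 2 * m + 1 ∧ 1 ≤ u.1 - u.2 ∧ u.1 - u.2 ≤ 2 * q + 3)) := by
  have h1 := h huv
  unfold low2 at h1
  rw [mem_union] at h1
  rcases h1 with h1 | h1
  · have := mem_reg.1 (mem_edgesIn.1 h1).1
    omega
  · have := mem_reg.1 (mem_edgesIn.1 h1).1
    omega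

/-! ### the sites -/

lemma fK_key (n0 m q k : ℕ) (hn : n0 ≤ m) :
    (k ≤ m ∧ fK n0 m (q + 1) k = ((k : ℤ) + q + 2, (k : ℤ) - q - 1)) ∨
      (m < k ∧ k ≤ m + q + 1 ∧ fK n0 m (q + 1) k = (2 * (m : ℤ) + 2 + q - k, (k : ℤ) - 1 - q)) ∨
      (m + q + 1 < k ∧ k + n0 ≤ 2 * m + q + 1 ∧
        fK n0 m (q + 1) k = (2 * (m : ℤ) + q + 2 - k, 2 * (m : ℤ) + q + 1 - k)) ∨
      (2 * m + q + 1 ≤ k + n0 ∧ fK n0 m (q + 1) k = ((n0 : ℤ) + 1, (n0 : ℤ))) := by
  unfold fK
  by_cases h1 : k ≤ m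
  · left
    rw [if_pos h1]
    refine ⟨h1, ?_⟩
    push_cast
    ext
    · simp only; omega
    · simp only; omega
  · rw [if_neg h1]
    by_cases h2 : k ≤ m + (q + 1)
    · rw [if_pos h2]
      right; left
      refine ⟨by omega, by omega, ?_⟩
      push_cast
      ext
      · simp only; omega
      · simp only; omega
    · rw [if_neg h2]
      by_cases h3 : k + n0 ≤ 2 * m + (q + 1)
      · rw [if_pos h3]
        right; right; left
        refine ⟨by omega, by omega, ?_⟩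
        push_cast
        ext
        · simp only; omega
        · simp only; omega
      · rw [if_neg h3]
        right; right; right
        exact ⟨by omega, rfl⟩

lemma fK_inj {n0 m q x y : ℕ} (hn : n0 ≤ m) (h : fK n0 m (q + 1) x = fK n0 m (q + 1) y) :
    x = y ∨ (2 * m + q + 1 ≤ x + n0 ∧ 2 * m + q + 1 ≤ y + n0) := by
  rcases fK_key n0 m q x hn with ⟨hx, ex⟩ | ⟨hx, hx', ex⟩ | ⟨hx, hx', ex⟩ | ⟨hx, ex⟩ <;>
    rcases fK_key n0 m q y hn with ⟨hy, ey⟩ | ⟨hy, hy', ey⟩ | ⟨hy, hy', ey⟩ | ⟨hy, ey⟩ <;>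
    (rw [ex, ey, Prod.mk.injEq] at h; omega)

lemma fK_left {n0 m q k : ℕ} (hn : n0 ≤ m) (h : k ≤ m) : fK n0 m (q + 1) k = up q (fr m 0 k) := by
  rw [fr0_apply h, up_apply]
  rcases fK_key n0 m q k hn with ⟨hx, ex⟩ | ⟨hx, hx', ex⟩ | ⟨hx, hx', ex⟩ | ⟨hx, ex⟩
  · rw [ex]
    ext
    · simp only; omega
    · rfl
  · omega
  · omega
  · omega

lemma fK_last {n0 m q k : ℕ} (hn : n0 ≤ m) (h : 2 * m + q + 1 ≤ k + n0) :
    fK n0 m (q + 1) k = ((n0 : ℤ) + 1, (n0 : ℤ)) := by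
  rcases fK_key n0 m q k hn with ⟨hx, ex⟩ | ⟨hx, hx', ex⟩ | ⟨hx, hx', ex⟩ | ⟨hx, ex⟩
  · omega
  · rw [ex]
    ext
    · simp only; omega
    · simp only; omega
  · rw [ex]
    ext
    · simp only; omega
    · simp only; omega
  · exact ex

/-- the sites of the right part and of the line `w = 1` are below the level of the upper leg -/
lemma fK_low {n0 m q k : ℕ} (hn : n0 ≤ m) (h : m < k) :
    (fK n0 m (q + 1) k).1 - (fK n0 m (q + 1) k).2 ≤ 2 * q + 2 := by
  rcases fK_key n0 m q k hn with ⟨hx, ex⟩ | ⟨hx, hx', ex⟩ | ⟨hx, hx', ex⟩ | ⟨hx, ex⟩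
  · omega
  · rw [ex]
    simp only
    omega
  · rw [ex]
    simp only
    omega
  · rw [ex]
    simp only
    omega

/-- the sites of the upper leg -/
lemma fK_high {n0 m q k : ℕ} (hn : n0 ≤ m) (h : k ≤ m) :
    (fK n0 m (q + 1) k).1 - (fK n0 m (q + 1) k).2 = 2 * q + 3 := by
  rw [fK_left hn h, fr0_apply h, up_apply]
  simp only
  ring

open Classical in
/-- the line `w = 1` is contracted to the point `(m+1, m)` -/
noncomputable def rh (n0 m : ℕ) (z : ℤ × ℤ) : ℤ × ℤ := if z ∈ SR n0 then ((m : ℤ) + 1, (m : ℤ)) else z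

lemma rh_site {n0 m q k : ℕ} (hn : n0 ≤ m) (h : m < k) :
    rh n0 m (fK n0 m (q + 1) k) = rot m q (fr q 0 (k - m - 1)) := by
  rw [fr_zero, rot_apply]
  rcases fK_key n0 m q k hn with ⟨hx, ex⟩ | ⟨hx, hx', ex⟩ | ⟨hx, hx', ex⟩ | ⟨hx, ex⟩
  · omega
  · rw [ex]
    unfold rh
    by_cases h1 : k = m + q + 1
    · rw [if_pos]
      · ext
        · simp only; omega
        · simp only; omega
      · rw [mem_SR]
        simp only
        omega
    · rw [if_neg]
      · ext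
        · simp only; omega
        · simp only; omega
      · rw [mem_SR]
        simp only
        omega
  · rw [ex]
    unfold rh
    rw [if_pos]
    · ext
      · simp only; omega
      · simp only; omega
    · rw [mem_SR]
      simp only
      omega
  · rw [ex]
    unfold rh
    rw [if_pos]
    · ext
      · simp only; omega
      · simp only; omega
    · rw [mem_SR]
      simp only
      omega

lemma cs_mono_set {A A' : Set (ℤ × ℤ)} (h : A ⊆ A') (ω : Finset (Sym2 (ℤ × ℤ))) :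
    cs A ω ≤ cs A' ω := by
  rw [cs_le_iff]
  exact ⟨fun u v h' => cs_edge h', fun u v h1 h2 => cs_wall (h h1) (h h2)⟩

lemma SR_sub {n0 m : ℕ} (hn : n0 ≤ m) : SR m ⊆ SR n0 := by
  intro z hz
  rw [mem_SR] at hz ⊢
  omega

lemma mid_mem_SR (m : ℕ) : ((m : ℤ) + 1, (m : ℤ)) ∈ SR m := by
  rw [mem_SR]
  simp only
  omega

/-- connectivity with the longer wired line is connectivity after contraction -/
lemma cs_rh {n0 m q : ℕ} (hn : n0 ≤ m) {b : ℤ} {ω : Finset (Sym2 (ℤ × ℤ))}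
    (h : ω ⊆ edgesIn (reg q 1 b)) (x y : ℤ × ℤ) :
    cs (SR n0) (ω.map (emb (rot m q))) x y ↔
      cs (SR m) (ω.map (emb (rot m q))) (rh n0 m x) (rh n0 m y) := by
  have hle : cs (SR m) (ω.map (emb (rot m q))) ≤ cs (SR n0) (ω.map (emb (rot m q))) :=
    cs_mono_set (SR_sub hn) _
  have hr : ∀ z, cs (SR n0) (ω.map (emb (rot m q))) z (rh n0 m z) := by
    intro z
    unfold rh
    by_cases hz : z ∈ SR n0
    · rw [if_pos hz]
      exact cs_wall hz (SR_sub hn (mid_mem_SR m))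
    · rw [if_neg hz]
  constructor
  · intro hc
    have hle' : cs (SR n0) (ω.map (emb (rot m q))) ≤
        Setoid.comap (rh n0 m) (cs (SR m) (ω.map (emb (rot m q)))) := by
      rw [cs_le_iff]
      have hs : ∀ u v : ℤ × ℤ, s(u, v) ∈ ω.map (emb (rot m q)) →
          cs (SR m) (ω.map (emb (rot m q))) u (rh n0 m u) := by
        intro u v huv
        have := rot_edge h huv
        unfold rh
        by_cases hz : u ∈ SR n0
        · rw [if_pos hz]
          refine cs_wall ?_ (mid_mem_SR m)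
          rw [mem_SR] at hz ⊢
          omega
        · rw [if_neg hz]
      constructor
      · intro u v huv
        rw [Setoid.comap_rel]
        have h1 := hs u v huv
        have h2 := hs v u (by rw [Sym2.eq_swap]; exact huv)
        exact Setoid.trans' _ (Setoid.symm' _ h1) (Setoid.trans' _ (cs_edge huv) h2)
      · intro u v hu hv
        rw [Setoid.comap_rel]
        unfold rh
        rw [if_pos hu, if_pos hv]
    exact hle' hc
  · intro hc
    exact Setoid.trans' _ (hr x) (Setoid.trans' _ (hle hc) (Setoid.symm' _ (hr y)))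

/-! ### the states on the sites -/

lemma comap_up2 (n0 m q : ℕ) (hn : n0 ≤ m) {b : ℤ} {ω : Finset (Sym2 (ℤ × ℤ))}
    (h : ω ⊆ edgesIn (reg m 1 b)) (x y : ℕ) :
    cs (SU m q) (ω.map (emb (up q))) (fK n0 m (q + 1) x) (fK n0 m (q + 1) y) ↔
      (IP.Slit.liftL m (st (2 * m + 1) (fr m 0) ω)) x y ∨
        (2 * m + q + 1 ≤ x + n0 ∧ 2 * m + q + 1 ≤ y + n0) := by
  have hiso : ∀ z : ℤ × ℤ, z.1 - z.2 ≤ 2 * q + 2 → ∀ z',
      cs (SU m q) (ω.map (emb (up q))) z z' → z' = z := by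
    intro z hz z' hzz
    refine cs_isolated ?_ ?_ hzz
    · intro v hv
      have := up_edge h hv
      omega
    · intro hz'
      have := hz'.2
      omega
  constructor
  · intro hc
    by_cases hx : x ≤ m
    · by_cases hy : y ≤ m
      · left
        right
        refine ⟨hx, hy, ?_⟩
        rw [fK_left hn hx, fK_left hn hy, cs_map_iff (up_mem m q)] at hc
        exact cs_le_cw _ _ hc
      · have := hiso _ (fK_low hn (by omega)) _ (Setoid.symm' _ hc)
        rcases fK_inj hn this with h1 | h1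
        · omega
        · omega
    · have := hiso _ (fK_low hn (by omega)) _ hc
      rcases fK_inj hn this with h1 | h1
      · left
        left
        exact h1.symm
      · exact Or.inr ⟨h1.2, h1.1⟩
  · rintro ((rfl | ⟨hx, hy, hc⟩) | ⟨hx, hy⟩)
    · exact (cs _ _).refl _
    · rw [fK_left hn hx, fK_left hn hy, cs_map_iff (up_mem m q)]
      change cw (2 * m + 1) ω (fr m 0 x) (fr m 0 y) at hc
      refine cs_of_cw (fun u v huv => (edge_reg h huv).2.2.1) ?_ ?_ hc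
      · rw [fr0_apply hx]; simp only; omega
      · rw [fr0_apply hy]; simp only; omega
    · rw [fK_last hn hx, fK_last hn hy]

lemma comap_rot2 (n0 m q : ℕ) (hn : n0 ≤ m) {b : ℤ} {ω : Finset (Sym2 (ℤ × ℤ))}
    (h : ω ⊆ edgesIn (reg q 1 b)) :
    Setoid.comap (fK n0 m (q + 1)) (cs (SR n0) (ω.map (emb (rot m q)))) =
      IP.Slit.liftR m (st (2 * q + 1) (fr q 0) ω) := by
  have hiso : ∀ k : ℕ, k ≤ m → ∀ z',
      cs (SR n0) (ω.map (emb (rot m q))) (fK n0 m (q + 1) k) z' → z' = fK n0 m (q + 1) k := by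
    intro k hk z' hzz
    have hs := fK_high (q := q) hn hk
    refine cs_isolated ?_ ?_ hzz
    · intro v hv
      have := rot_edge h hv
      omega
    · intro hz'
      have h1 := hz'.1
      omega
  ext x y
  rw [Setoid.comap_rel]
  have hR : (IP.Slit.liftR m (st (2 * q + 1) (fr q 0) ω)) x y ↔
      x = y ∨ (m < x ∧ m < y ∧ (st (2 * q + 1) (fr q 0) ω) (x - m - 1) (y - m - 1)) :=
    Iff.rfl
  rw [hR]
  constructor
  · intro hc
    by_cases hx : x ≤ m
    · rcases fK_inj hn (hiso x hx _ hc) with h1 | h1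
      · exact Or.inl h1.symm
      · omega
    · by_cases hy : y ≤ m
      · rcases fK_inj hn (hiso y hy _ (Setoid.symm' _ hc)) with h1 | h1
        · exact Or.inl h1
        · omega
      · refine Or.inr ⟨by omega, by omega, ?_⟩
        rw [cs_rh hn h, rh_site hn (by omega), rh_site hn (by omega), cs_map_iff (rot_mem m q)] at hc
        exact cs_le_cw _ _ hc
  · rintro (rfl | ⟨hx, hy, h4⟩)
    · exact (cs _ _).refl _
    · rw [cs_rh hn h, rh_site hn (by omega), rh_site hn (by omega), cs_map_iff (rot_mem m q)]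
      change cw (2 * q + 1) ω (fr q 0 (x - m - 1)) (fr q 0 (y - m - 1)) at h4
      refine cs_of_cw (fun u v huv => (edge_reg h huv).2.2.1) ?_ ?_ h4
      · rw [fr_zero]; simp only; omega
      · rw [fr_zero]; simp only; omega

/-! ### gluing -/

/-- the connectivity of the glued configuration -/
def glK (n0 m q : ℕ) (ω0 ω1 ω2 : Finset (Sym2 (ℤ × ℤ))) : Setoid (ℤ × ℤ) :=
  cs (LW n0) ω0 ⊔ cs (SU m q) (ω1.map (emb (up q))) ⊔ cs (SR n0) (ω2.map (emb (rot m q)))

lemma site2_left {n0 m q : ℕ} (hn : n0 ≤ m) {z : ℤ × ℤ} (h0 : 0 ≤ z.1 + z.2)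
    (h1 : z.1 + z.2 ≤ 2 * m + 1) (h2 : z.1 - z.2 = 2 * q + 3) : ∃ k, z = fK n0 m (q + 1) k := by
  refine ⟨(z.2 + q + 1).toNat, ?_⟩
  have e : (((z.2 + q + 1).toNat : ℕ) : ℤ) = z.2 + q + 1 := Int.toNat_of_nonneg (by omega)
  rw [fK_left hn (by omega), fr0_apply (by omega), up_apply, e]
  ext
  · simp only; omega
  · simp only; omega

lemma site2_right {n0 m q : ℕ} (hn : n0 ≤ m) {z : ℤ × ℤ} (h0 : z.1 + z.2 = 2 * m + 1)
    (h1 : 1 ≤ z.1 - z.2) (h2 : z.1 - z.2 ≤ 2 * q + 2) : ∃ k, z = fK n0 m (q + 1) k := by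
  refine ⟨(z.2 + q + 1).toNat, ?_⟩
  have e : (((z.2 + q + 1).toNat : ℕ) : ℤ) = z.2 + q + 1 := Int.toNat_of_nonneg (by omega)
  rcases fK_key n0 m q (z.2 + q + 1).toNat hn with ⟨hx, ex⟩ | ⟨hx, hx', ex⟩ | ⟨hx, hx', ex⟩ | ⟨hx, ex⟩
  · omega
  · rw [ex]
    ext
    · simp only; omega
    · simp only; omega
  · omega
  · rw [ex]
    ext
    · simp only; omega
    · simp only; omega

lemma site2_bot {n0 m q : ℕ} (hn : n0 ≤ m) {z : ℤ × ℤ} (h0 : z.1 - z.2 = 1)
    (h1 : 2 * (n0 : ℤ) + 1 ≤ z.1 + z.2) (h2 : z.1 + z.2 ≤ 2 * m + 1) :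
    ∃ k, z = fK n0 m (q + 1) k := by
  refine ⟨(2 * m + q + 1 - z.2).toNat, ?_⟩
  have e : (((2 * (m : ℤ) + q + 1 - z.2).toNat : ℕ) : ℤ) = 2 * m + q + 1 - z.2 :=
    Int.toNat_of_nonneg (by omega)
  rcases fK_key n0 m q (2 * (m : ℤ) + q + 1 - z.2).toNat hn with
    ⟨hx, ex⟩ | ⟨hx, hx', ex⟩ | ⟨hx, hx', ex⟩ | ⟨hx, ex⟩
  · omega
  · rw [ex]
    ext
    · simp only; omega
    · simp only; omega
  · rw [ex]
    ext
    · simp only; omega
    · simp only; omega
  · rw [ex]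
    ext
    · simp only; omega
    · simp only; omega

theorem comap_glK (n0 p q : ℕ) {a b b1 : ℤ} {ω0 ω1 ω2 : Finset (Sym2 (ℤ × ℤ))}
    (h0 : ω0 ⊆ low2 n0 (n0 + p) q a) (h1 : ω1 ⊆ edgesIn (reg (n0 + p) 1 b))
    (h2 : ω2 ⊆ edgesIn (reg q 1 b1)) :
    Setoid.comap (fK n0 (n0 + p) (q + 1)) (glK n0 (n0 + p) q ω0 ω1 ω2) =
      stA (LW n0) (fK n0 (n0 + p) (q + 1)) ω0 ⊔
        IP.Slit.liftL (n0 + p) (st (2 * ((n0 + p : ℕ) : ℤ) + 1) (fr (n0 + p) 0) ω1) ⊔
        IP.Slit.liftR (n0 + p) (st (2 * q + 1) (fr q 0) ω2) := by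
  set m := n0 + p with hm0
  have hn : n0 ≤ m := by omega
  have hrot := comap_rot2 n0 m q hn h2
  have step1 : Setoid.comap (fK n0 m (q + 1)) (cs (LW n0) ω0 ⊔ cs (SU m q) (ω1.map (emb (up q)))) =
      stA (LW n0) (fK n0 m (q + 1)) ω0 ⊔ IP.Slit.liftL m (st (2 * m + 1) (fr m 0) ω1) := by
    rw [IP.PG.comap_sup]
    · apply le_antisymm
      · apply sup_le le_sup_left
        intro x y hxy
        rw [Setoid.comap_rel, comap_up2 n0 m q hn h1] at hxy
        rcases hxy with hxy | ⟨hx, hy⟩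
        · exact (le_sup_right : IP.Slit.liftL m (st (2 * m + 1) (fr m 0) ω1) ≤ _) hxy
        · apply (le_sup_left : stA (LW n0) (fK n0 m (q + 1)) ω0 ≤ _)
          rw [stA_rel, fK_last hn hx, fK_last hn hy]
      · apply sup_le le_sup_left
        intro x y hxy
        apply (le_sup_right : Setoid.comap (fK n0 m (q + 1)) (cs (SU m q) (ω1.map (emb (up q)))) ≤ _)
        rw [Setoid.comap_rel, comap_up2 n0 m q hn h1]
        exact Or.inl hxy
    · intro z
      by_cases g1 : (∀ u, s(z, u) ∉ ω1.map (emb (up q))) ∧ z ∉ SU m q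
      · exact Or.inr (Or.inl fun z' hz' => cs_isolated g1.1 g1.2 hz')
      have m1 : z.1 + z.2 ≤ 2 * m + 1 ∧ 2 * (q : ℤ) + 3 ≤ z.1 - z.2 := by
        by_cases g2 : ∀ u, s(z, u) ∉ ω1.map (emb (up q))
        · by_contra hlt
          exact g1 ⟨g2, fun hz => hlt ⟨le_of_eq hz.1, hz.2⟩⟩
        · push Not at g2
          obtain ⟨v, hv⟩ := g2
          exact (up_edge h1 hv).2
      by_cases g0 : ∀ u, s(z, u) ∉ ω0
      · refine Or.inl fun z' hz' => cs_isolated g0 ?_ hz'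
        intro hz
        have := hz.2
        omega
      right; right
      push Not at g0
      obtain ⟨u, hu⟩ := g0
      have m0 := low2_edge h0 hu
      obtain ⟨k, hk⟩ := site2_left (n0 := n0) (m := m) (q := q) hn m0.1 m1.1 (by omega)
      exact ⟨k, by rw [← hk], by rw [← hk]⟩
  have step2 : Setoid.comap (fK n0 m (q + 1)) (glK n0 m q ω0 ω1 ω2) =
      Setoid.comap (fK n0 m (q + 1)) (cs (LW n0) ω0 ⊔ cs (SU m q) (ω1.map (emb (up q)))) ⊔
      Setoid.comap (fK n0 m (q + 1)) (cs (SR n0) (ω2.map (emb (rot m q)))) := by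
    unfold glK
    apply IP.PG.comap_sup
    intro z
    by_cases g2 : (∀ u, s(z, u) ∉ ω2.map (emb (rot m q))) ∧ z ∉ SR n0
    · exact Or.inr (Or.inl fun z' hz' => cs_isolated g2.1 g2.2 hz')
    have m2 : (2 * (m : ℤ) + 1 ≤ z.1 + z.2 ∧ 1 ≤ z.1 - z.2 ∧ z.1 - z.2 ≤ 2 * q + 2) ∨
        (z.1 - z.2 = 1 ∧ 2 * (n0 : ℤ) + 1 ≤ z.1 + z.2) := by
      by_cases g3 : ∀ u, s(z, u) ∉ ω2.map (emb (rot m q))
      · have hz : z ∈ SR n0 := by
          by_contra hlt
          exact g2 ⟨g3, hlt⟩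
        exact Or.inr hz
      · push Not at g3
        obtain ⟨v, hv⟩ := g3
        exact Or.inl (rot_edge h2 hv)
    by_cases g0 : (∀ u, s(z, u) ∉ ω0) ∧ z ∉ LW n0
    · left
      apply sup_isolated
      · exact fun z' hz' => cs_isolated g0.1 g0.2 hz'
      · intro z' hz'
        refine cs_isolated ?_ ?_ hz'
        · intro v hv
          have := up_edge h1 hv
          omega
        · intro hz
          have := hz.2
          omega
    · have m0 : (z.1 + z.2 = 2 * n0 + 1 ∧ z.1 - z.2 ≤ 1) ∨ (z.1 + z.2 ≤ 2 * n0 + 1 ∧ z.1 - z.2 ≤ 1) ∨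
          (z.1 + z.2 ≤ 2 * m + 1 ∧ 1 ≤ z.1 - z.2) := by
        by_cases g3 : ∀ u, s(z, u) ∉ ω0
        · have hz : z ∈ LW n0 := by
            by_contra hlt
            exact g0 ⟨g3, hlt⟩
          exact Or.inl hz
        · push Not at g3
          obtain ⟨u, hu⟩ := g3
          have := low2_edge h0 hu
          omega
      have hk : ∃ k, z = fK n0 m (q + 1) k := by
        by_cases g3 : z.1 - z.2 = 1
        · exact site2_bot hn g3 (by omega) (by omega)
        · exact site2_right hn (by omega) (by omega) (by omega)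
      obtain ⟨k, hk⟩ := hk
      right; right
      exact ⟨k, by rw [← hk], by rw [← hk]⟩
  rw [step2, step1, hrot]

/-! ### the crossing event -/

lemma glK_of_joined {n0 m q : ℕ} {ω0 ω1 ω2 : Finset (Sym2 (ℤ × ℤ))} {u v : ℤ × ℤ}
    (h : Joined (ω0 ∪ ω1.map (emb (up q)) ∪ ω2.map (emb (rot m q))) u v) :
    glK n0 m q ω0 ω1 ω2 u v := by
  obtain ⟨p⟩ := h
  induction p with
  | nil => exact (glK _ _ _ _ _ _).refl _
  | @cons a b c' hab p ih =>
    rw [SimpleGraph.fromEdgeSet_adj] at hab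
    have hab1 : s(a, b) ∈ ω0 ∪ ω1.map (emb (up q)) ∪ ω2.map (emb (rot m q)) := by exact_mod_cast hab.1
    refine (glK _ _ _ _ _ _).trans ?_ ih
    rw [mem_union, mem_union] at hab1
    rcases hab1 with (h1 | h1) | h1
    · exact (le_sup_left.trans le_sup_left : cs (LW n0) ω0 ≤ glK n0 m q ω0 ω1 ω2) (cs_edge h1)
    · exact (le_sup_right.trans le_sup_left : cs (SU m q) (ω1.map (emb (up q))) ≤
        glK n0 m q ω0 ω1 ω2) (cs_edge h1)
    · exact (le_sup_right : cs (SR n0) (ω2.map (emb (rot m q))) ≤ glK n0 m q ω0 ω1 ω2) (cs_edge h1)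

theorem crK_iff_gl (n0 m q : ℕ) (hn : n0 ≤ m) (ω0 ω1 ω2 : Finset (Sym2 (ℤ × ℤ))) :
    CrJ m n0 q (ω0 ∪ ω1.map (emb (up q)) ∪ ω2.map (emb (rot m q))) ↔
      glK n0 m q ω0 ω1 ω2 (fK n0 m (q + 1) m) (fK n0 m (q + 1) (2 * m + q + 1 - n0)) := by
  set ω := ω0 ∪ ω1.map (emb (up q)) ∪ ω2.map (emb (rot m q)) with hω
  have hn1 : fK n0 m (q + 1) m ∈ SU m q := by
    rw [fK_left hn le_rfl, up_mem, fr0_apply le_rfl, mem_SI]
    simp only
    omega
  have hlast : fK n0 m (q + 1) (2 * m + q + 1 - n0) = ((n0 : ℤ) + 1, (n0 : ℤ)) := fK_last hn (by omega)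
  have hL : fK n0 m (q + 1) (2 * m + q + 1 - n0) ∈ LW n0 := by
    rw [hlast, mem_LW]
    simp only
    omega
  have hR : fK n0 m (q + 1) (2 * m + q + 1 - n0) ∈ SR n0 := by
    rw [hlast]
    exact mid_mem_SR n0
  constructor
  · rintro ⟨z, z', h1, h2, h3, h4⟩
    have g1 : glK n0 m q ω0 ω1 ω2 (fK n0 m (q + 1) m) z :=
      (le_sup_right.trans le_sup_left : cs (SU m q) (ω1.map (emb (up q))) ≤ glK n0 m q ω0 ω1 ω2)
        (cs_wall hn1 ⟨h1, h2⟩)
    have g2 : glK n0 m q ω0 ω1 ω2 z' (fK n0 m (q + 1) (2 * m + q + 1 - n0)) := by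
      rcases h3 with h3 | h3
      · exact (le_sup_left.trans le_sup_left : cs (LW n0) ω0 ≤ glK n0 m q ω0 ω1 ω2) (cs_wall h3 hL)
      · exact (le_sup_right : cs (SR n0) (ω2.map (emb (rot m q))) ≤ glK n0 m q ω0 ω1 ω2)
          (cs_wall h3 hR)
    exact (glK _ _ _ _ _ _).trans g1 ((glK _ _ _ _ _ _).trans (glK_of_joined h4) g2)
  · intro h
    set Q : ℤ × ℤ → Prop := fun z => (∃ p ∈ SU m q, Joined ω p z) ∨ CrJ m n0 q ω with hQ
    have hwall : ∀ u v : ℤ × ℤ, (u ∈ LW n0 ∨ u ∈ SR n0) → Q u → Q v := by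
      rintro u v hu (⟨p, hp, hj⟩ | hc)
      · exact Or.inr ⟨p, u, hp.1, hp.2, hu, hj⟩
      · exact Or.inr hc
    have hedge : ∀ u v : ℤ × ℤ, s(u, v) ∈ ω → Q u → Q v := by
      rintro u v huv (⟨p, hp, hj⟩ | hc)
      · exact Or.inl ⟨p, hp, joined_trans hj (joined_edge huv)⟩
      · exact Or.inr hc
    have hE : ∀ u v : ℤ × ℤ, s(u, v) ∈ ω → Q u = Q v := by
      intro u v huv
      have h2 : s(v, u) ∈ ω := by
        rw [Sym2.eq_swap]
        exact huv
      exact propext ⟨hedge u v huv, hedge v u h2⟩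
    have hle : glK n0 m q ω0 ω1 ω2 ≤ Setoid.comap Q ⟨Eq, eq_equivalence⟩ := by
      refine sup_le (sup_le ?_ ?_) ?_
      · rw [cs_le_iff]
        constructor
        · intro u v huv
          rw [Setoid.comap_rel]
          exact hE u v (by rw [hω, mem_union, mem_union]; exact Or.inl (Or.inl huv))
        · intro u v hu hv
          rw [Setoid.comap_rel]
          exact propext ⟨hwall u v (Or.inl hu), hwall v u (Or.inl hv)⟩
      · rw [cs_le_iff]
        constructor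
        · intro u v huv
          rw [Setoid.comap_rel]
          exact hE u v (by rw [hω, mem_union, mem_union]; exact Or.inl (Or.inr huv))
        · intro u v hu hv
          rw [Setoid.comap_rel]
          exact propext ⟨fun _ => Or.inl ⟨v, hv, joined_refl _ _⟩,
            fun _ => Or.inl ⟨u, hu, joined_refl _ _⟩⟩
      · rw [cs_le_iff]
        constructor
        · intro u v huv
          rw [Setoid.comap_rel]
          exact hE u v (by rw [hω, mem_union, mem_union]; exact Or.inr huv)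
        · intro u v hu hv
          rw [Setoid.comap_rel]
          exact propext ⟨hwall u v (Or.inr hu), hwall v u (Or.inr hv)⟩
    have h2 := hle h
    rw [Setoid.comap_rel] at h2
    have h3 : Q (fK n0 m (q + 1) (2 * m + q + 1 - n0)) :=
      (show Q (fK n0 m (q + 1) m) = Q (fK n0 m (q + 1) (2 * m + q + 1 - n0)) from h2) ▸
        Or.inl ⟨_, hn1, joined_refl _ _⟩
    rcases h3 with ⟨p, hp, hj⟩ | hc
    · exact ⟨p, _, hp.1, hp.2, Or.inl hL, hj⟩
    · exact hc

/-- **The crossing event in terms of the three states** (upper leg wider than the lower one). -/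
theorem crJ_iff2 (n0 p q : ℕ) {a b b1 : ℤ} {ω0 ω1 ω2 : Finset (Sym2 (ℤ × ℤ))}
    (h0 : ω0 ⊆ low2 n0 (n0 + p) q a) (h1 : ω1 ⊆ edgesIn (reg (n0 + p) 1 b))
    (h2 : ω2 ⊆ edgesIn (reg q 1 b1)) :
    CrJ (n0 + p) n0 q (ω0 ∪ ω1.map (emb (up q)) ∪ ω2.map (emb (rot (n0 + p) q))) ↔
      IP.Slit.cross (n0 + p) (p + q) (st (2 * ((n0 + p : ℕ) : ℤ) + 1) (fr (n0 + p) 0) ω1)
        (st (2 * q + 1) (fr q 0) ω2) (stA (LW n0) (fK n0 (n0 + p) (q + 1)) ω0) := by
  rw [crK_iff_gl n0 (n0 + p) q (by omega)]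
  unfold IP.Slit.cross
  rw [← comap_glK n0 p q h0 h1 h2, show n0 + p + (p + q) + 1 = 2 * (n0 + p) + q + 1 - n0 by omega]
  rfl

end H47Perc.JJ
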