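import Pool.Agent.Helper87.J2.Geo
import Pool.Agent.Helper87.J.Prob

/-!
The crossing probability of the T-junction (upper leg wider than the lower one) is the trilinear form of
the three laws.
-/

set_option autoImplicit false

namespace H47Perc.JJ
open Finset Filter Topology SimpleGraph H47Perc.DS H47Perc.SL
open Pool.Agent.Helper69.RSW (P)

lemma mem_low2 {n0 m q : ℕ} {a : ℤ} {u v : ℤ × ℤ} : s(u, v) ∈ low2 n0 m q a ↔
    ((0 ≤ u.1 + u.2 ∧ u.1 + u.2 ≤ 2 * n0 + 1 ∧ a ≤ u.1 - u.2 ∧ u.1 - u.2 ≤ 1) ∧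
      (0 ≤ v.1 + v.2 ∧ v.1 + v.2 ≤ 2 * n0 + 1 ∧ a ≤ v.1 - v.2 ∧ v.1 - v.2 ≤ 1) ∧
      lattice.Adj u v) ∨
    ((0 ≤ u.1 + u.2 ∧ u.1 + u.2 ≤ 2 * m + 1 ∧ 1 ≤ u.1 - u.2 ∧ u.1 - u.2 ≤ 2 * q + 3) ∧
      (0 ≤ v.1 + v.2 ∧ v.1 + v.2 ≤ 2 * m + 1 ∧ 1 ≤ v.1 - v.2 ∧ v.1 - v.2 ≤ 2 * q + 3) ∧
      lattice.Adj u v) := by
  unfold low2
  rw [mem_union, mem_edgesIn, mem_edgesIn, mem_reg, mem_reg, mem_reg, mem_reg]

theorem jE_eq2 (n0 p q : ℕ) {M : ℤ} (h1 : 2 * ((n0 + p : ℕ) : ℤ) + 1 ≤ M) (h2 : 2 * (q : ℤ) + 3 ≤ M) :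
    JN.jE (2 * ((n0 + p : ℕ) : ℤ) + 1) (2 * n0 + 1) (2 * q + 1) M =
      low2 n0 (n0 + p) q (-M) ∪ (edgesIn (reg (n0 + p) 1 (M - 2 * q - 2))).map (emb (up q)) ∪
        (edgesIn (reg q 1 (M - 2 * ((n0 + p : ℕ) : ℤ)))).map (emb (rot (n0 + p) q)) := by
  classical
  ext e
  induction e using Sym2.ind with
  | _ u v =>
    unfold JN.jE
    rw [mem_filter, mem_union, mem_union, mem_low2, mem_up, mem_rot, mem_edgesIn, JN.mem_dom,
      JN.mem_dom, JN.cutJ_mk, abs_le, abs_le]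
    unfold JN.InJ
    push_cast at h1 ⊢
    constructor
    · rintro ⟨⟨g1, g2, h3⟩, h4⟩
      have h5 := adj_level h3
      have h6 := adj_sum h3
      by_cases hc : u.1 - u.2 ≤ 1 ∧ v.1 - v.2 ≤ 1
      · left; left; left
        exact ⟨by omega, by omega, h3⟩
      · by_cases hd : u.1 + u.2 ≤ 2 * (n0 + p) + 1 ∧ v.1 + v.2 ≤ 2 * (n0 + p) + 1
        · by_cases he : u.1 - u.2 ≤ 2 * q + 3 ∧ v.1 - v.2 ≤ 2 * q + 3
          · left; left; right
            exact ⟨by omega, by omega, h3⟩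
          · left; right
            exact ⟨by omega, by omega, h3⟩
        · right
          exact ⟨by omega, by omega, h3⟩
    · rintro (((⟨g1, g2, h3⟩ | ⟨g1, g2, h3⟩) | ⟨g1, g2, h3⟩) | ⟨g1, g2, h3⟩)
      · exact ⟨⟨by omega, by omega, h3⟩, by omega⟩
      · exact ⟨⟨by omega, by omega, h3⟩, by omega⟩
      · exact ⟨⟨by omega, by omega, h3⟩, by omega⟩
      · exact ⟨⟨by omega, by omega, h3⟩, by omega⟩

lemma disjK_up (n0 m q : ℕ) (hn : n0 ≤ m) (a b : ℤ) :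
    Disjoint (low2 n0 m q a) ((edgesIn (reg m 1 b)).map (emb (up q))) := by
  rw [Finset.disjoint_left]
  intro e
  induction e using Sym2.ind with
  | _ u v =>
    rw [mem_low2, mem_up]
    rintro (⟨h1, h2, h3⟩ | ⟨h1, h2, h3⟩) ⟨h4, h5, _⟩
    · omega
    · have := adj_level h3
      omega

lemma disjK_rot (n0 m q : ℕ) (hn : n0 ≤ m) (a b b1 : ℤ) :
    Disjoint (low2 n0 m q a ∪ (edgesIn (reg m 1 b)).map (emb (up q)))
      ((edgesIn (reg q 1 b1)).map (emb (rot m q))) := by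
  rw [Finset.disjoint_left]
  intro e
  induction e using Sym2.ind with
  | _ u v =>
    rw [mem_union, mem_low2, mem_up, mem_rot]
    rintro ((⟨h1, h2, h3⟩ | ⟨h1, h2, h3⟩) | ⟨h1, h2, h3⟩) ⟨h4, h5, _⟩
    · have := adj_sum h3
      omega
    · have := adj_sum h3
      omega
    · omega

theorem pJ_law2 (n0 p q : ℕ) {M : ℤ} (h1 : 2 * ((n0 + p : ℕ) : ℤ) + 1 ≤ M)
    (h2 : 2 * (q : ℤ) + 3 ≤ M) :
    JN.pJ (2 * ((n0 + p : ℕ) : ℤ) + 1) (2 * n0 + 1) (2 * q + 1) M =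
      IP.Slit.tri (n0 + p) (p + q)
        (law (2 * ((n0 + p : ℕ) : ℤ) + 1) (edgesIn (reg (n0 + p) 1 (M - 2 * q - 2))) (fr (n0 + p) 0))
        (law (2 * q + 1) (edgesIn (reg q 1 (M - 2 * ((n0 + p : ℕ) : ℤ)))) (fr q 0))
        (lawA (LW n0) (low2 n0 (n0 + p) q (-M)) (fK n0 (n0 + p) (q + 1))) := by
  classical
  set F0 := low2 n0 (n0 + p) q (-M) with hF0
  set F1 := edgesIn (reg (n0 + p) 1 (M - 2 * q - 2)) with hF1
  set F2 := edgesIn (reg q 1 (M - 2 * ((n0 + p : ℕ) : ℤ))) with hF2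
  have d1 : Disjoint F0 (F1.map (emb (up q))) := disjK_up n0 (n0 + p) q (by omega) _ _
  have d2 : Disjoint (F0 ∪ F1.map (emb (up q))) (F2.map (emb (rot (n0 + p) q))) :=
    disjK_rot n0 (n0 + p) q (by omega) _ _ _
  have e1 : JN.pJ (2 * ((n0 + p : ℕ) : ℤ) + 1) (2 * n0 + 1) (2 * q + 1) M =
      ∑ ω0 ∈ F0.powerset, ∑ ω1 ∈ F1.powerset, ∑ ω2 ∈ F2.powerset,
        (1 / 2 : ℝ) ^ #F1 * (1 / 2) ^ #F2 * (1 / 2) ^ #F0 *
          IP.Slit.cf (n0 + p) (p + q) (st (2 * ((n0 + p : ℕ) : ℤ) + 1) (fr (n0 + p) 0) ω1)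
            (st (2 * q + 1) (fr q 0) ω2)
            (stA (LW n0) (fK n0 (n0 + p) (q + 1)) ω0) := by
    unfold JN.pJ P
    rw [jE_eq2 n0 p q h1 h2, ← hF0, ← hF1, ← hF2, card_filter, Nat.cast_sum]
    simp only [Nat.cast_ite, Nat.cast_one, Nat.cast_zero]
    rw [sum_powerset_union d2, sum_powerset_union d1, card_union_of_disjoint d2,
      card_union_of_disjoint d1, card_map, card_map, sum_div]
    refine sum_congr rfl fun ω0 h0 => ?_
    rw [sum_powerset_map, sum_div]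
    refine sum_congr rfl fun ω1 h1 => ?_
    rw [sum_powerset_map, sum_div]
    refine sum_congr rfl fun ω2 h2 => ?_
    rw [mem_powerset] at h0 h1 h2
    have h := crJ_iff2 n0 p q h0 h1 h2
    rw [← crJ_eq] at h
    unfold IP.Slit.cf
    by_cases hc : IP.Slit.cross (n0 + p) (p + q) (st (2 * ((n0 + p : ℕ) : ℤ) + 1) (fr (n0 + p) 0) ω1)
        (st (2 * q + 1) (fr q 0) ω2) (stA (LW n0) (fK n0 (n0 + p) (q + 1)) ω0)
    · have h' := h.2 hc
      rw [if_pos hc, if_pos h', pow_add, pow_add]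
      simp only [one_div, inv_pow]
      field_simp
    · have h' := fun g => hc (h.1 g)
      rw [if_neg hc, if_neg h', zero_div, mul_zero]
  rw [e1]
  unfold law lawA
  rw [IP.Slit.tri_sums, sum_comm]
  refine sum_congr rfl fun ω1 _ => ?_
  rw [sum_comm]

/-- the crossing probability of the truncated T-junction in terms of the transfer matrices, `K` being the
operator of the part of the lower piece above the level `1` -/
theorem pJ_T2 (n0 p q : ℕ) (K : IP.M →ₗ[ℝ] IP.M)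
    (hK : ∀ a : ℤ, a ≤ 1 → lawA (LW n0) (low2 n0 (n0 + p) q a) (fK n0 (n0 + p) (q + 1)) =
      K (law (2 * n0 + 1) (edgesIn (reg n0 a 1)) (fr n0 0))) (N : ℕ) :
    JN.pJ (2 * ((n0 + p : ℕ) : ℤ) + 1) (2 * n0 + 1) (2 * q + 1) (2 * ((N + (n0 + p + q + 1) : ℕ) : ℤ) + 1) =
      IP.Slit.tri (n0 + p) (p + q)
        (((IP.T (n0 + p) 0) ^ (N + (n0 + p))) (Finsupp.single (IP.bot (n0 + p)) 1))
        (((IP.T q 0) ^ (N + (q + 1))) (Finsupp.single (IP.bot q) 1))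
        (K (((IP.T n0 0) ^ (N + (n0 + p + q + 2))) (Finsupp.single (IP.bot n0) 1))) := by
  rw [pJ_law2 n0 p q (by push_cast; omega) (by push_cast; omega), hK _ (by push_cast; omega)]
  have e1 : 2 * ((N + (n0 + p + q + 1) : ℕ) : ℤ) + 1 - 2 * q - 2 = 2 * ((N + (n0 + p) : ℕ) : ℤ) + 1 := by
    push_cast; ring
  have e2 : 2 * ((N + (n0 + p + q + 1) : ℕ) : ℤ) + 1 - 2 * ((n0 + p : ℕ) : ℤ) =
      2 * ((N + (q + 1) : ℕ) : ℤ) + 1 := by
    push_cast; ring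
  rw [e1, e2, law_upper, law_upper, law_lower n0 (N + (n0 + p + q + 1))]
  rfl

/-- **The crossing probability of the infinite T-junction** (`i = 2(n0+p)+1`, `L = 2 n0+1`, `h = 2q+1`) is
the trilinear form of the three stationary vectors. -/
theorem pJ_tendsto2 (n0 p q : ℕ) (K : IP.M →ₗ[ℝ] IP.M)
    (hK : ∀ a : ℤ, a ≤ 1 → lawA (LW n0) (low2 n0 (n0 + p) q a) (fK n0 (n0 + p) (q + 1)) =
      K (law (2 * n0 + 1) (edgesIn (reg n0 a 1)) (fr n0 0))) :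
    Tendsto (fun M : ℕ => JN.pJ (2 * ((n0 + p : ℕ) : ℤ) + 1) (2 * n0 + 1) (2 * q + 1) M) atTop
      (𝓝 (IP.Slit.tri (n0 + p) (p + q) (IP.P (n0 + p) 0) (IP.P q 0) (K (IP.P n0 0)))) := by
  have hb : ∀ n, Finsupp.single (IP.bot n) (1 : ℝ) ∈ IP.Sup (IP.W n) := by
    intro n
    apply Finsupp.single_mem_supported
    exact IP.bot_W n
  have hshift : ∀ c : ℕ, Tendsto (fun N : ℕ => N + c) atTop atTop := tendsto_add_atTop_nat
  have h := tri_tendsto_lin (n0 + p) (p + q) LinearMap.id LinearMap.id K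
    (v1 := fun N => ((IP.T (n0 + p) 0) ^ (N + (n0 + p))) (Finsupp.single (IP.bot (n0 + p)) 1))
    (v2 := fun N => ((IP.T q 0) ^ (N + (q + 1))) (Finsupp.single (IP.bot q) 1))
    (v := fun N => ((IP.T n0 0) ^ (N + (n0 + p + q + 2))) (Finsupp.single (IP.bot n0) 1))
    (fun N => IP.PG.T_pow_Sup (n0 + p) 0 _ (hb _)) (fun N => IP.PG.T_pow_Sup q 0 _ (hb q))
    (fun N => IP.PG.T_pow_Sup n0 0 _ (hb _)) (IP.P_Sup _ 0) (IP.P_Sup q 0) (IP.P_Sup _ 0)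
    (fun σ => (IP.Slit.T_pow_tendsto (n0 + p) σ).comp (hshift _))
    (fun σ => (IP.Slit.T_pow_tendsto q σ).comp (hshift _))
    (fun σ => (IP.Slit.T_pow_tendsto n0 σ).comp (hshift _))
  have hodd : Tendsto (fun N : ℕ => JN.pJ (2 * ((n0 + p : ℕ) : ℤ) + 1) (2 * n0 + 1) (2 * q + 1)
      (2 * ((N + (n0 + p + q + 1) : ℕ) : ℤ) + 1)) atTop
      (𝓝 (IP.Slit.tri (n0 + p) (p + q) (IP.P (n0 + p) 0) (IP.P q 0) (K (IP.P n0 0)))) := by
    refine h.congr fun N => ?_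
    rw [pJ_T2 n0 p q K hK]
    rfl
  have hmono : Monotone (fun M : ℕ => JN.pJ (2 * ((n0 + p : ℕ) : ℤ) + 1) (2 * n0 + 1) (2 * q + 1)
      (M : ℤ)) := by
    intro M M' hM
    exact JN.pJ_mono (by exact_mod_cast hM)
  have hsub : Tendsto (fun N : ℕ => 2 * (N + (n0 + p + q + 1)) + 1) atTop atTop :=
    tendsto_atTop_mono (fun N => by simp only [id]; omega) tendsto_id
  rw [tendsto_iff_tendsto_subseq_of_monotone hmono hsub]
  refine hodd.congr fun N => ?_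
  simp only [Function.comp_apply]
  push_cast
  rfl

end H47Perc.JJ
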